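import Pool.Agent.LibKuQ.C4

/-! [KuQ C5] e0^n is not a cube in ℚ_3(U, U') for 3 ∤ n (MEDIUM).
Plan: E = 5 + 2U + 2U^2, E * (5 - 2U + 2U^2) = 1 (from hU), both factors of norm ≤ 1, so ‖E‖ = 1 and
‖x‖ = 1. d := x^8 - 1, ‖d‖ ≤ ‖U‖ (C4). (x^3)^8 - 1 = (1+d)^3 - 1 = 3d + 3d^2 + d^3 has norm
≤ max(‖U‖/3, ‖U‖^3) = ‖U‖^3 (‖U‖^2 = 1/3). On the other side E = -(1 - V), V = 6 + 2U + 2U^2, ‖V‖ = ‖U‖,
E^(8n) = (1 - V)^(8n), and (1 - V)^m - 1 + m V is V^2 times something of norm ≤ 1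
(`Commute.add_pow` / induction on m), ‖(m : PadicAlgCl 3)‖ = 1 for 3 ∤ m, so
‖E^(8n) - 1‖ = ‖U‖. Hence ‖U‖ ≤ ‖U‖^3, contradiction with 0 < ‖U‖ < 1. -/

namespace KuQ

private theorem C5_add_lt {L : Type*} [NormedField L] [IsUltrametricDist L] (a b : L)
    (h : ‖b‖ < ‖a‖) : ‖a + b‖ = ‖a‖ := by
  rw [IsUltrametricDist.norm_add_eq_max_of_norm_ne_norm h.ne', max_eq_left h.le]

private theorem C5_nat {L : Type*} [NormedField L] [IsUltrametricDist L] (n : ℕ) :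
    ‖(n : L)‖ ≤ 1 := by
  induction n with
  | zero => simp
  | succ n ih =>
    rw [Nat.cast_succ]
    exact (IsUltrametricDist.norm_add_le_max _ _).trans (max_le ih (by rw [norm_one]))

private theorem C5_two {L : Type*} [NormedField L] [IsUltrametricDist L] (h3 : ‖(3 : L)‖ = 1 / 3) :
    ‖(2 : L)‖ = 1 := by
  have h1 : (2 : L) = -1 + 3 := by norm_num
  rw [h1, C5_add_lt (-1) 3 (by rw [h3, norm_neg, norm_one]; norm_num), norm_neg, norm_one]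

private theorem C5_unit {L : Type*} [NormedField L] [IsUltrametricDist L] (h3 : ‖(3 : L)‖ = 1 / 3)
    (n : ℕ) (hn : ¬ 3 ∣ n) : ‖(n : L)‖ = 1 := by
  have h1 : (n : L) = ((n % 3 : ℕ) : L) + 3 * ((n / 3 : ℕ) : L) := by
    have h2 : ((n % 3 + 3 * (n / 3) : ℕ) : L) = (n : L) := by rw [Nat.mod_add_div n 3]
    rw [Nat.cast_add, Nat.cast_mul, Nat.cast_ofNat] at h2
    exact h2.symm
  have h4 : ‖((n % 3 : ℕ) : L)‖ = 1 := by
    have h5 : n % 3 = 1 ∨ n % 3 = 2 := by omega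
    rcases h5 with h5 | h5
    · rw [h5, Nat.cast_one, norm_one]
    · rw [h5, Nat.cast_ofNat]
      exact C5_two h3
  rw [h1, C5_add_lt _ _ (by
    rw [h4, norm_mul, h3]
    have := C5_nat (L := L) (n / 3)
    linarith), h4]

private theorem C5_pow {L : Type*} [NormedField L] [IsUltrametricDist L] (V : L) (hV : ‖V‖ ≤ 1)
    (m : ℕ) : ∃ R : L, ‖R‖ ≤ 1 ∧ (1 - V) ^ m = 1 - m * V + V ^ 2 * R := by
  induction m with
  | zero => exact ⟨0, by simp, by simp⟩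
  | succ m ih =>
    obtain ⟨R, hR, he⟩ := ih
    refine ⟨m + (R + -(V * R)), ?_, ?_⟩
    · refine (IsUltrametricDist.norm_add_le_max _ _).trans (max_le (C5_nat m) ?_)
      refine (IsUltrametricDist.norm_add_le_max _ _).trans (max_le hR ?_)
      rw [norm_neg, norm_mul]
      exact mul_le_one₀ hV (norm_nonneg _) hR
    · rw [pow_succ, he]
      push_cast
      ring

private theorem C5_main {L : Type*} [NormedField L] [IsUltrametricDist L] (h3 : ‖(3 : L)‖ = 1 / 3)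
    (U x : L) (hU : ‖U‖ ^ 2 = 1 / 3) (n : ℕ) (hn : ¬ 3 ∣ n)
    (hx : ‖x‖ = 1 → ‖x ^ 8 - 1‖ ≤ ‖U‖) (he : x ^ 3 = (5 + 2 * U + 2 * U ^ 2) ^ n) : False := by
  have hUn := norm_nonneg U
  have hU1 : ‖U‖ < 1 := by nlinarith
  have hU3 : 1 / 3 ≤ ‖U‖ := by nlinarith
  have hU3' : 1 / 3 < ‖U‖ := by nlinarith
  have h2 := C5_two h3
  obtain ⟨V, hVd⟩ : ∃ V : L, V = 2 * U + (3 * 2 + 2 * U ^ 2) := ⟨_, rfl⟩
  have hV : ‖V‖ = ‖U‖ := by
    have h2U : ‖2 * U‖ = ‖U‖ := by rw [norm_mul, h2, one_mul]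
    rw [hVd, C5_add_lt _ _ ?_, h2U]
    rw [h2U]
    refine (IsUltrametricDist.norm_add_le_max _ _).trans_lt (max_lt ?_ ?_)
    · rw [norm_mul, h2, h3, mul_one]
      exact hU3'
    · rw [norm_mul, h2, norm_pow, hU, one_mul]
      exact hU3'
  have hE : 5 + 2 * U + 2 * U ^ 2 = -(1 - V) := by
    rw [hVd]
    ring
  have h1V : ‖1 - V‖ = 1 := by
    rw [sub_eq_add_neg, C5_add_lt _ _ (by rw [norm_neg, norm_one, hV]; exact hU1), norm_one]
  have hx1 : ‖x‖ = 1 := by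
    have h4 : ‖x‖ ^ 3 = 1 := by
      rw [← norm_pow, he, norm_pow, hE, norm_neg, h1V, one_pow]
    exact (pow_eq_one_iff_of_nonneg (norm_nonneg _) (by norm_num)).1 h4
  have hd := hx hx1
  obtain ⟨d, hdd⟩ : ∃ d : L, d = x ^ 8 - 1 := ⟨_, rfl⟩
  rw [← hdd] at hd
  have hd1 : ‖d‖ ≤ 1 := hd.trans hU1.le
  have hdn := norm_nonneg d
  have h24 : ‖x ^ 24 - 1‖ ≤ ‖U‖ ^ 3 := by
    have h5 : x ^ 24 - 1 = 3 * d + (3 * d ^ 2 + d ^ 3) := by
      rw [hdd]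
      ring
    have h6 : ‖U‖ ^ 3 = 1 / 3 * ‖U‖ := by rw [pow_succ, hU]
    rw [h5]
    refine (IsUltrametricDist.norm_add_le_max _ _).trans (max_le ?_ ?_)
    · rw [norm_mul, h3, h6]
      exact mul_le_mul_of_nonneg_left hd (by norm_num)
    · refine (IsUltrametricDist.norm_add_le_max _ _).trans (max_le ?_ ?_)
      · rw [norm_mul, h3, h6, norm_pow]
        refine mul_le_mul_of_nonneg_left (le_trans ?_ hd) (by norm_num)
        nlinarith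
      · rw [norm_pow]
        exact pow_le_pow_left₀ hdn hd 3
  obtain ⟨R, hR, hm⟩ := C5_pow V (by rw [hV]; exact hU1.le) (8 * n)
  have hpow : x ^ 24 = (1 - V) ^ (8 * n) := by
    have h7 : x ^ 24 = (x ^ 3) ^ 8 := by rw [← pow_mul]
    rw [h7, he, hE, ← pow_mul, mul_comm n 8, pow_mul, pow_mul, Even.neg_pow (by decide)]
  have h8 : x ^ 24 - 1 = -(((8 * n : ℕ) : L) * V) + V ^ 2 * R := by
    rw [hpow, hm]
    ring
  have h9 : ‖-(((8 * n : ℕ) : L) * V)‖ = ‖U‖ := by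
    rw [norm_neg, norm_mul, C5_unit h3 (8 * n) (by omega), one_mul, hV]
  have h10 : ‖x ^ 24 - 1‖ = ‖U‖ := by
    rw [h8, C5_add_lt _ _ ?_, h9]
    rw [h9, norm_mul, norm_pow, hV, hU]
    have := norm_nonneg R
    nlinarith
  rw [h10] at h24
  nlinarith

theorem LF.e0_pow_ne_cube {U U' : PadicAlgCl 3} (h : LF U U')
    (x : PadicAlgCl 3) (hx : x ∈ IntermediateField.adjoin ℚ_[3] {U, U'}) (n : ℕ)
    (hn : ¬ 3 ∣ n) : x ^ 3 ≠ (5 + 2 * U + 2 * U ^ 2) ^ n := by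
  intro he
  have h3 : ‖(3 : PadicAlgCl 3)‖ = 1 / 3 := by
    have h1 : ‖algebraMap ℚ_[3] (PadicAlgCl 3) 3‖ = ‖(3 : ℚ_[3])‖ := PadicAlgCl.norm_extends 3 3
    rw [map_ofNat] at h1
    rw [h1]
    have h2 := Padic.norm_p (p := 3)
    rw [one_div]
    exact_mod_cast h2
  exact C5_main h3 U x h.norm_U n hn (fun h1 => h.pow_eight x hx h1) he

end KuQ
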