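import Mathlib

/-! [KuQ B1] every prime of a number field comes from an embedding (MEDIUM/STRONG, only Mathlib).
Plan: take any ι0 : AlgebraicClosure ℚ →ₐ[ℚ] PadicAlgCl q (`IsAlgClosed.lift`; PadicAlgCl q is
algebraically closed and of characteristic zero). Let F be the normal closure of j(M) in
AlgebraicClosure ℚ (finite Galois), 𝓞 F its ring of integers, Q0 = {x ∈ 𝓞 F : ‖ι0 x‖ < 1} (a prime
ideal containing q; integral elements have norm ≤ 1), Q1 a prime of 𝓞 F above P (lying over for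
𝓞 M → 𝓞 F, `Ideal.exists_ideal_over_prime_of_isIntegral...`). Both lie over (q), so some g ∈ Gal(F/ℚ)
has g Q0 = Q1 (`exists_smul_eq_of_isGaloisGroup` as used in
Mathlib/NumberTheory/NumberField/ClassNumber.lean, or `Ideal.exists_map_eq_of_isGalois`). Extend g to
AlgebraicClosure ℚ (`AlgEquiv.restrictNormalHom_surjective`) and put ι = ι0 ∘ g⁻¹.
(Alternative without F: `Algebra.IsInvariant.exists_smul_of_under_eq_of_profinite` for the
ring of all algebraic integers.) -/

open NumberField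

namespace KuQ

private theorem B1_norm_le_one (q : ℕ) [Fact q.Prime] (z : PadicAlgCl q) (hz : IsIntegral ℤ z) :
    ‖z‖ ≤ 1 := by
  have h := (Valuation.integer.integers (PadicAlgCl.valued q).v).mem_of_integral
    (x := z) (hz.tower_top)
  rw [Valuation.mem_integer_iff, PadicAlgCl.valuation_def] at h
  exact_mod_cast h

/-- the prime of the ring of integers cut out by an embedding -/
private def B1_ideal {F : Type*} [Field F] (q : ℕ) [Fact q.Prime] (f : F →+* PadicAlgCl q) :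
    Ideal (𝓞 F) where
  carrier := {x | ‖f x‖ < 1}
  add_mem' := by
    intro a b ha hb
    simp only [Set.mem_ofPred_eq, map_add] at ha hb ⊢
    exact lt_of_le_of_lt (PadicAlgCl.isNonarchimedean q _ _) (max_lt ha hb)
  zero_mem' := by simp
  smul_mem' := by
    intro c x hx
    simp only [Set.mem_ofPred_eq, smul_eq_mul, map_mul, norm_mul] at hx ⊢
    have h1 : ‖f c‖ ≤ 1 := B1_norm_le_one q _ (c.isIntegral_coe.map f.toIntAlgHom)
    calc ‖f c‖ * ‖f x‖ ≤ 1 * ‖f x‖ := by gcongr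
      _ < 1 := by simpa using hx

private theorem B1_mem {F : Type*} [Field F] (q : ℕ) [Fact q.Prime] (f : F →+* PadicAlgCl q)
    (x : 𝓞 F) : x ∈ B1_ideal q f ↔ ‖f x‖ < 1 := Iff.rfl

private instance B1_prime {F : Type*} [Field F] (q : ℕ) [Fact q.Prime] (f : F →+* PadicAlgCl q) :
    (B1_ideal q f).IsPrime where
  ne_top' := by
    rw [Ideal.ne_top_iff_one, B1_mem]
    simp
  mem_or_mem' := by
    intro x y hxy
    rw [B1_mem] at hxy
    rw [B1_mem, B1_mem]
    by_contra! h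
    have h1 : ‖f x‖ ≤ 1 := B1_norm_le_one q _ (x.isIntegral_coe.map f.toIntAlgHom)
    have h2 : ‖f y‖ ≤ 1 := B1_norm_le_one q _ (y.isIntegral_coe.map f.toIntAlgHom)
    have h3 : ‖f x‖ = 1 := le_antisymm h1 h.1
    have h4 : ‖f y‖ = 1 := le_antisymm h2 h.2
    have h5 : f (x * y : 𝓞 F) = f x * f y := by simp
    rw [h5, norm_mul, h3, h4] at hxy
    norm_num at hxy

private theorem B1_norm_q (q : ℕ) [Fact q.Prime] : ‖(q : PadicAlgCl q)‖ < 1 := by
  have h := PadicAlgCl.valuation_p q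
  rw [PadicAlgCl.valuation_def] at h
  have h2 : ‖(q : PadicAlgCl q)‖ = 1 / (q : ℝ) := by
    have := congrArg (fun t : NNReal => (t : ℝ)) h
    simpa using this
  rw [h2]
  have hq : (1 : ℝ) < q := by exact_mod_cast (Fact.out : q.Prime).one_lt
  rw [div_lt_one (by linarith)]
  exact hq

/-- a prime ideal containing q lies over (q) -/
private theorem B1_under {B : Type*} [CommRing B] (q : ℕ) [Fact q.Prime] (Q : Ideal B)
    [Q.IsPrime] (hq : (q : B) ∈ Q) : Q.under ℤ = Ideal.span {(q : ℤ)} := by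
  have hp : Prime (q : ℤ) := Nat.prime_iff_prime_int.mp Fact.out
  have hmax : (Ideal.span {(q : ℤ)}).IsMaximal :=
    PrincipalIdealRing.isMaximal_of_irreducible hp.irreducible
  have hle : Ideal.span {(q : ℤ)} ≤ Q.under ℤ := by
    rw [Ideal.span_singleton_le_iff_mem, Ideal.under_def, Ideal.mem_comap]
    simpa using hq
  have hne : Q.under ℤ ≠ ⊤ := by
    rw [Ideal.under_def]
    exact Ideal.comap_ne_top _ Ideal.IsPrime.ne_top'
  exact (hmax.eq_of_le hne hle).symm

private theorem B1_general {M : Type*} [Field M] [NumberField M] {Ω : Type*} [Field Ω]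
    [Algebra ℚ Ω] [IsAlgClosed Ω] [Algebra.IsAlgebraic ℚ Ω]
    (j : M →ₐ[ℚ] Ω) (P : Ideal (𝓞 M)) [P.IsPrime] (q : ℕ) [Fact q.Prime]
    (hq : (q : 𝓞 M) ∈ P) :
    ∃ ι : Ω →+* PadicAlgCl q, ∀ x : 𝓞 M, ‖ι (j x)‖ < 1 ↔ x ∈ P := by
  classical
  have hN : Normal ℚ Ω := by
    constructor
    intro x
    exact IsAlgClosed.splits _
  let ι0 : Ω →+* PadicAlgCl q :=
    (IsAlgClosed.lift (R := ℚ) (S := Ω) (M := PadicAlgCl q)).toRingHom
  let F : IntermediateField ℚ Ω :=
    IntermediateField.normalClosure ℚ M Ω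
  have : FiniteDimensional ℚ F := by
    convert normalClosure.is_finiteDimensional ℚ M Ω
  have : Normal ℚ F := by
    convert normalClosure.normal ℚ M Ω
    exact Subsingleton.elim _ _
  have : NumberField F :=
    @NumberField.of_module_finite ℚ F _ _ inferInstance (IntermediateField.algebra' F)
      (normalClosure.is_finiteDimensional ℚ M Ω)
  have : IsGalois ℚ F := ⟨⟩
  have hjmem : ∀ x : M, j x ∈ F := fun x => j.fieldRange_le_normalClosure ⟨x, rfl⟩
  let jF : M →+* F := (j.codRestrict F.toSubalgebra hjmem).toRingHom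
  have hjF : ∀ x : M, ((jF x : F) : Ω) = j x := fun x => rfl
  let φ : 𝓞 M →+* 𝓞 F := RingOfIntegers.mapRingHom jF
  obtain ⟨Q1, hQ1, hQP⟩ : ∃ Q : Ideal (𝓞 F), Q.IsPrime ∧ Q.comap φ = P := by
    let _ := φ.toAlgebra
    have hint : Algebra.IsIntegral (𝓞 M) (𝓞 F) := by
      constructor
      intro x
      have h : IsIntegral ℤ x := RingOfIntegers.isIntegral x
      have : IsScalarTower ℤ (𝓞 M) (𝓞 F) := inferInstance
      exact h.tower_top
    have hinj : Function.Injective (algebraMap (𝓞 M) (𝓞 F)) := by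
      intro a b hab
      have h1 : jF a = jF b := congrArg (fun z : 𝓞 F => (z : F)) hab
      exact RingOfIntegers.ext (jF.injective h1)
    exact Ideal.exists_ideal_over_prime_of_isIntegral_of_isDomain P
      (by rw [(RingHom.injective_iff_ker_eq_bot _).mp hinj]; exact bot_le)
  let f0 : F →+* PadicAlgCl q := ι0.comp (algebraMap F Ω)
  have hq0 : (q : 𝓞 F) ∈ B1_ideal q f0 := by
    rw [B1_mem]
    simpa using B1_norm_q q
  have hq1 : (q : 𝓞 F) ∈ Q1 := by
    have : φ (q : 𝓞 M) ∈ Q1 := by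
      rw [← Ideal.mem_comap, hQP]
      exact hq
    simpa using this
  obtain ⟨g, hg⟩ := Algebra.IsInvariant.exists_smul_of_under_eq ℤ (𝓞 F) (F ≃ₐ[ℚ] F) Q1
    (B1_ideal q f0) ((B1_under q Q1 hq1).trans (B1_under q _ hq0).symm)
  obtain ⟨σ, hσ⟩ := AlgEquiv.restrictNormalHom_surjective (F := ℚ) (K₁ := F)
    Ω g
  refine ⟨ι0.comp (σ : Ω →+* Ω), fun x => ?_⟩
  have h1 : x ∈ P ↔ φ x ∈ Q1 := by
    rw [← Ideal.mem_comap, hQP]
  have h2 : φ x ∈ Q1 ↔ g • φ x ∈ B1_ideal q f0 := by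
    rw [hg]
    exact (Ideal.smul_mem_pointwise_smul_iff).symm
  have h3 : ((g • φ x : 𝓞 F) : F) = g (jF x) := rfl
  have h4 : algebraMap F Ω (g (jF x)) = σ (j x) := by
    rw [← hσ]
    exact AlgEquiv.restrictNormal_commutes σ F (jF x)
  rw [h1, h2, B1_mem, h3]
  show ‖ι0 (σ (j x))‖ < 1 ↔ ‖ι0 (algebraMap F Ω (g (jF x)))‖ < 1
  rw [h4]

theorem exists_embedding {M : Type*} [Field M] [NumberField M]
    (j : M →+* AlgebraicClosure ℚ) (P : Ideal (𝓞 M)) [P.IsPrime] (q : ℕ) [Fact q.Prime]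
    (hq : (q : 𝓞 M) ∈ P) :
    ∃ ι : AlgebraicClosure ℚ →+* PadicAlgCl q, ∀ x : 𝓞 M, ‖ι (j x)‖ < 1 ↔ x ∈ P := by
  let A : Algebra ℚ (AlgebraicClosure ℚ) := AlgebraicClosure.instAlgebra ℚ
  have hA : @Algebra.IsAlgebraic ℚ (AlgebraicClosure ℚ) _ _ A := AlgebraicClosure.isAlgebraic ℚ
  exact @B1_general M _ _ (AlgebraicClosure ℚ) _ A _ hA
    { j with commutes' := fun r => RingHom.congr_fun (Subsingleton.elim
        (j.comp (algebraMap ℚ M)) (@algebraMap ℚ (AlgebraicClosure ℚ) _ _ A)) r } P _ q _ hq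

end KuQ
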