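import Mathlib

/-! [KuQ B2] norm one implies valuation one (MEDIUM, only Mathlib).
Plan: the localisation of 𝓞 M at v is {x/y : y ∉ v}. If v.valuation x ≤ 1 then x = a / b with
a, b ∈ 𝓞 M, b ∉ v (`IsDedekindDomain.HeightOneSpectrum.valuation...`, e.g.
`exists_primeCompl...`/ `valuation_le_one_iff`, or by the Chinese remainder / `v.valuation` surjectivity),
‖ι b‖ = 1 (integral elements have norm ≤ 1 in PadicAlgCl, hι). If v.valuation x < 1 then a ∈ v, so
‖ι x‖ = ‖ι a‖ < 1. If v.valuation x > 1 apply this to x⁻¹. Hence ‖ι x‖ = 1 forces valuation 1.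
(x = 0 is excluded by hx.) -/

open NumberField IsDedekindDomain

namespace KuQ

private theorem norm_le_one_of_isIntegral {q : ℕ} [Fact q.Prime] (x : PadicAlgCl q)
    (hx : IsIntegral ℤ x) : ‖x‖ ≤ 1 := by
  have hx' : IsIntegral (Valued.v : Valuation (PadicAlgCl q) NNReal).integer x := hx.tower_top
  have h : x ∈ (Valued.v : Valuation (PadicAlgCl q) NNReal).integer :=
    (Valuation.integer.integers _).mem_of_integral hx'
  have h2 : Valued.v x ≤ (1 : NNReal) := h
  rw [← PadicAlgCl.valuation_coe]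
  exact_mod_cast h2

private theorem norm_lt_one_of_valuation_lt {M : Type*} [Field M] [NumberField M] {q : ℕ} [Fact q.Prime]
    (v : HeightOneSpectrum (𝓞 M)) (ι : M →+* PadicAlgCl q)
    (hι : ∀ x : 𝓞 M, ‖ι x‖ < 1 ↔ x ∈ v.asIdeal) (x : M) (hx : v.valuation M x < 1) :
    ‖ι x‖ < 1 := by
  obtain ⟨n, d, hnd⟩ := v.exists_primeCompl_mul_eq_of_integer x hx.le
  have hd : (d : 𝓞 M) ∉ v.asIdeal := d.2
  have hd1 : ‖ι (algebraMap (𝓞 M) M d)‖ = 1 := by
    apply le_antisymm
    · apply norm_le_one_of_isIntegral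
      exact map_isIntegral_int ι (RingOfIntegers.isIntegral_coe (d : 𝓞 M))
    · exact not_lt.1 fun h => hd ((hι d).1 h)
  have hdv : v.valuation M (algebraMap (𝓞 M) M d) = 1 :=
    v.valuation_eq_one_iff_notMem.2 hd
  have hn : n ∈ v.asIdeal := by
    rw [← v.valuation_lt_one_iff_mem (K := M)]
    have h3 : v.valuation M (algebraMap (𝓞 M) M n) < 1 := by
      rw [← hnd, map_mul, hdv, mul_one]
      exact hx
    exact h3
  have hn1 : ‖ι (algebraMap (𝓞 M) M n)‖ < 1 := (hι n).2 hn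
  rw [← hnd, map_mul, norm_mul, hd1, mul_one] at hn1
  exact hn1

theorem valuation_eq_one {M : Type*} [Field M] [NumberField M] {q : ℕ} [Fact q.Prime]
    (v : HeightOneSpectrum (𝓞 M)) (ι : M →+* PadicAlgCl q)
    (hι : ∀ x : 𝓞 M, ‖ι x‖ < 1 ↔ x ∈ v.asIdeal) (x : M) (hx : ‖ι x‖ = 1) :
    v.valuation M x = 1 := by
  apply le_antisymm
  · by_contra hcon
    rw [not_le] at hcon
    have hx0 : v.valuation M x⁻¹ < 1 := by
      rw [map_inv₀]
      exact inv_lt_one_of_one_lt₀ hcon
    have h := norm_lt_one_of_valuation_lt v ι hι x⁻¹ hx0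
    rw [map_inv₀, norm_inv, hx, inv_one] at h
    exact lt_irrefl _ h
  · by_contra hcon
    rw [not_le] at hcon
    have h := norm_lt_one_of_valuation_lt v ι hι x hcon
    rw [hx] at h
    exact lt_irrefl _ h

end KuQ
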