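import Pool.Agent.LibKuQ.A2

open NumberField Module Polynomial

namespace KuQ
variable {M : Type*} [Field M] [NumberField M] {u : M}

/-- an ideal of prime norm `p` gives a ring homomorphism to `ZMod p` with this kernel -/
theorem exists_hom_zmod (P : Ideal (𝓞 M)) {p : ℕ} (hp : p.Prime) (hP : Ideal.absNorm P = p) :
    ∃ φ : 𝓞 M →+* ZMod p, ∀ x, φ x = 0 ↔ x ∈ P := by
  have hfin : Finite (𝓞 M ⧸ P) := by
    rw [← Ideal.absNorm_ne_zero_iff, hP]; exact hp.ne_zero
  have : Fintype (𝓞 M ⧸ P) := Fintype.ofFinite _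
  have hc : Fintype.card (𝓞 M ⧸ P) = p := by
    rw [← hP, Ideal.absNorm_apply, Submodule.cardQuot_apply, Nat.card_eq_fintype_card]
  refine ⟨((ZMod.ringEquivOfPrime (𝓞 M ⧸ P) hp hc).symm : 𝓞 M ⧸ P →+* ZMod p).comp
    (Ideal.Quotient.mk P), fun x => ?_⟩
  rw [RingHom.comp_apply, RingHom.coe_coe, EmbeddingLike.map_eq_zero_iff, Ideal.Quotient.eq_zero_iff_mem]

/-- `U` as an algebraic integer -/
noncomputable def QF.U (h : QF u) : 𝓞 M := ⟨u, h.isIntegral⟩

theorem QF.coe_U (h : QF u) : (h.U : M) = u := rfl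

theorem QF.U_root (h : QF u) : h.U ^ 4 + 4 * h.U ^ 2 + 6 = 0 := by
  apply RingOfIntegers.ext
  have e4 : (algebraMap (𝓞 M) M) 4 = 4 := map_ofNat _ 4
  have e6 : (algebraMap (𝓞 M) M) 6 = 6 := map_ofNat _ 6
  change algebraMap (𝓞 M) M (h.U ^ 4 + 4 * h.U ^ 2 + 6) = algebraMap (𝓞 M) M 0
  rw [map_add, map_add, map_mul, map_pow, map_pow, map_zero, e4, e6]
  exact h.root

theorem QF.no_zeta (h : QF u) (x : M) : x ^ 2 + x + 1 ≠ 0 := by
  intro hx
  have hxi : IsIntegral ℤ x := by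
    refine ⟨X ^ 2 + X + 1, by monicity!, ?_⟩
    simp only [eval₂_add, eval₂_pow, eval₂_X, eval₂_one]
    exact hx
  let y : 𝓞 M := ⟨x, hxi⟩
  have hy : y ^ 2 + y + 1 = 0 := RingOfIntegers.ext hx
  have hn : Ideal.absNorm (Ideal.span {2 + h.U + h.U ^ 2}) = 2 :=
    h.absNorm_span _ 2 1 1 0 (by
      have e2 : (algebraMap (𝓞 M) M) 2 = 2 := map_ofNat _ 2
      change algebraMap (𝓞 M) M (2 + h.U + h.U ^ 2) = _
      rw [map_add, map_add, map_pow, e2]
      change 2 + u + u ^ 2 = _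
      simp [el]) 2
      (by norm_num [nr, nrA, nrB])
  obtain ⟨φ, -⟩ := exists_hom_zmod _ Nat.prime_two hn
  have := congrArg φ hy
  rw [map_add, map_add, map_pow, map_one, map_zero] at this
  generalize φ y = t at this
  revert this; revert t; decide

theorem QF.e0_ne_cube (h : QF u) (x : M) : x ^ 3 ≠ e0 u := by
  intro hx
  have hxi : IsIntegral ℤ x := by
    have h1 : IsIntegral ℤ (x ^ 3) := by
      rw [hx]; exact (((5 + 2 * h.U + 2 * h.U ^ 2 : 𝓞 M)).isIntegral_coe)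
    exact IsIntegral.of_pow (by norm_num) h1
  let y : 𝓞 M := ⟨x, hxi⟩
  have hy : y ^ 3 = 5 + 2 * h.U + 2 * h.U ^ 2 := RingOfIntegers.ext hx
  have hn : Ideal.absNorm (Ideal.span {h.U - 7}) = 2603 :=
    h.absNorm_span _ (-7) 1 0 0 (by
      have e7 : (algebraMap (𝓞 M) M) 7 = 7 := map_ofNat _ 7
      change algebraMap (𝓞 M) M (h.U - 7) = _
      rw [map_sub, e7]
      change u - 7 = _
      unfold el; push_cast; ring) 2603
      (by norm_num [nr, nrA, nrB])
  have h19 : Nat.Prime 19 := by norm_num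
  obtain ⟨P, hPm, hPu, hPdvd⟩ := Ideal.exists_isMaximal_dvd_of_dvd_absNorm' h19
    (Ideal.span {h.U - 7}) (by rw [hn]; norm_num)
  have hP19 : Ideal.absNorm P = 19 := by
    obtain ⟨p, f, hf, hpP, hp, hpf⟩ := Ideal.exists_prime_and_absNorm_eq_pow P
    have hp19 : p = 19 := by
      have h1 : (p : ℤ) ∈ P.under ℤ := by
        rw [Ideal.under_def, Ideal.mem_comap]
        simpa using hpP
      rw [hPu, Ideal.mem_span_singleton] at h1
      have h2 : 19 ∣ p := by exact_mod_cast h1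
      exact ((Nat.prime_dvd_prime_iff_eq h19 hp).mp h2).symm
    subst hp19
    have hd : 19 ^ f ∣ 2603 := by
      rw [← hpf, ← hn]; exact Ideal.absNorm_dvd_absNorm_of_le (Ideal.dvd_iff_le.mp hPdvd)
    have hf1 : f = 1 := by
      by_contra hne
      have h2 : 2 ≤ f := by omega
      have := (pow_dvd_pow 19 h2).trans hd
      norm_num at this
    rw [hpf, hf1, pow_one]
  obtain ⟨φ, hφ⟩ := exists_hom_zmod P h19 hP19
  have hU : φ h.U = 7 := by
    have : φ (h.U - 7) = 0 := (hφ _).mpr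
      ((Ideal.dvd_iff_le.mp hPdvd) (Ideal.mem_span_singleton_self _))
    rw [map_sub, sub_eq_zero] at this
    rw [this]; exact map_ofNat φ 7
  have := congrArg φ hy
  rw [map_pow, map_add, map_add, map_mul, map_mul, map_pow, hU] at this
  rw [show φ 5 = 5 from map_ofNat φ 5, show φ 2 = 2 from map_ofNat φ 2] at this
  generalize φ y = t at this
  revert this; revert t; decide

end KuQ
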