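import Pool.Agent.LibKuQ.A4
import Pool.Agent.LibKuQ.A6

/-! [KuQ A7] every unit is e0^k times a cube (MEDIUM).
Plan: rank = 1, so by `NumberField.Units.exist_unique_eq_mul_prod` every unit is ζ * η^m with ζ torsion
and η = fundSystem (the index type `Fin (rank M)` has one element, `h.rank_eq`).
A torsion unit ζ is a cube (of a torsion unit): its order n is not divisible by 3 (otherwise
ζ^(n/3) = x has x^3 = 1, x ≠ 1, so x^2 + x + 1 = 0, against `QF.no_zeta`), so ζ = (ζ^c)^3 with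
3c ≡ 1 mod n (`exists_pow_eq_self_of_coprime` / Nat.Coprime). e0 is a unit of 𝓞 M
(`e0_mul_neg`), e0 = ζ0 * η^m0, and 3 ∤ m0 since otherwise e0 is a cube (`QF.e0_ne_cube`).
Given ε = ζ η^m: choose k ∈ {0,1,2} with k m0 ≡ m mod 3; then ε = e0^k * y^3. -/

open NumberField Module Polynomial

namespace KuQ
variable {M : Type*} [Field M] [NumberField M] {u : M}

private theorem A7_one_gen (h : QF u) : ∃ η : (𝓞 M)ˣ, ∀ ε : (𝓞 M)ˣ,
    ∃ ζ ∈ Units.torsion M, ∃ m : ℤ, ε = ζ * η ^ m := by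
  have hr : Units.rank M = 1 := h.rank_eq
  have hsub : Subsingleton (Fin (Units.rank M)) := by
    rw [hr]; infer_instance
  have i0 : Fin (Units.rank M) := ⟨0, by rw [hr]; norm_num⟩
  refine ⟨Units.fundSystem M i0, fun ε => ?_⟩
  obtain ⟨ζe, hζe, -⟩ := Units.exist_unique_eq_mul_prod M ε
  refine ⟨ζe.1, ζe.1.2, ζe.2 i0, ?_⟩
  rw [Fintype.prod_subsingleton _ i0] at hζe
  exact hζe

private theorem A7_torsion_cube (h : QF u) (ζ : (𝓞 M)ˣ) (hζ : ζ ∈ Units.torsion M) :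
    ∃ t : (𝓞 M)ˣ, ζ = t ^ 3 := by
  have hfin : IsOfFinOrder ζ := by
    rw [Units.torsion, CommGroup.mem_torsion] at hζ
    exact hζ
  have hn : 0 < orderOf ζ := hfin.orderOf_pos
  have h3 : ¬ 3 ∣ orderOf ζ := by
    rintro ⟨c, hc⟩
    have hx3 : (ζ ^ c) ^ 3 = 1 := by
      rw [← pow_mul, mul_comm c 3, ← hc, pow_orderOf_eq_one]
    have hx1 : ζ ^ c ≠ 1 := by
      intro h1
      have hd : orderOf ζ ∣ c := orderOf_dvd_of_pow_eq_one h1
      have hcpos : 0 < c := by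
        rcases Nat.eq_zero_or_pos c with h0 | h0
        · rw [h0] at hc; omega
        · exact h0
      have := Nat.le_of_dvd hcpos hd
      omega
    set x : M := (((ζ ^ c : (𝓞 M)ˣ) : 𝓞 M) : M) with hx
    have e3 : x ^ 3 = 1 := by
      have := congrArg (fun w : (𝓞 M)ˣ => ((w : 𝓞 M) : M)) hx3
      simpa [hx] using this
    have e1 : x ≠ 1 := by
      intro hh
      apply hx1
      apply Units.ext
      apply RingOfIntegers.ext
      simpa [hx] using hh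
    have : x ^ 2 + x + 1 = 0 := by
      have hm : (x - 1) * (x ^ 2 + x + 1) = 0 := by
        linear_combination e3
      rcases mul_eq_zero.mp hm with h1 | h1
      · exact absurd (sub_eq_zero.mp h1) e1
      · exact h1
    exact h.no_zeta x this
  have hcop : Nat.Coprime 3 (orderOf ζ) := (Nat.Prime.coprime_iff_not_dvd Nat.prime_three).mpr h3
  obtain ⟨m, hm⟩ := exists_pow_eq_self_of_coprime hcop
  refine ⟨ζ ^ m, ?_⟩
  rw [← pow_mul, mul_comm m 3, pow_mul, hm]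

private theorem A7_e0_unit (h : QF u) : ∃ E : (𝓞 M)ˣ, ((E : 𝓞 M) : M) = e0 u := by
  have hu := h.isIntegral
  have hi : ∀ v : M, IsIntegral ℤ v → IsIntegral ℤ (e0 v) := by
    intro v hv
    unfold e0
    have h5 : IsIntegral ℤ (5 : M) := by
      have := isIntegral_algebraMap (R := ℤ) (A := M) (x := 5)
      simpa using this
    have h2 : IsIntegral ℤ (2 : M) := by
      have := isIntegral_algebraMap (R := ℤ) (A := M) (x := 2)
      simpa using this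
    exact (h5.add (h2.mul hv)).add (h2.mul (hv.pow 2))
  have h1 := hi u hu
  have h2 := hi (-u) hu.neg
  let a : 𝓞 M := ⟨e0 u, h1⟩
  let b : 𝓞 M := ⟨e0 (-u), h2⟩
  have hab : a * b = 1 := by
    apply RingOfIntegers.ext
    exact e0_mul_neg h.root
  exact ⟨⟨a, b, hab, by rw [mul_comm]; exact hab⟩, rfl⟩

theorem QF.unit_eq (h : QF u) (ε : (𝓞 M)ˣ) :
    ∃ k : ℕ, k < 3 ∧ ∃ y : M, ((ε : 𝓞 M) : M) = e0 u ^ k * y ^ 3 := by
  obtain ⟨η, hη⟩ := A7_one_gen h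
  obtain ⟨E, hE⟩ := A7_e0_unit h
  obtain ⟨ζ0, hζ0, m0, hm0⟩ := hη E
  obtain ⟨t0, ht0⟩ := A7_torsion_cube h ζ0 hζ0
  obtain ⟨ζ, hζ, m, hm⟩ := hη ε
  obtain ⟨t, ht⟩ := A7_torsion_cube h ζ hζ
  have h3 : ¬ (3 : ℤ) ∣ m0 := by
    rintro ⟨c, hc⟩
    have hE3 : E = (t0 * η ^ c) ^ 3 := by
      rw [hm0, ht0, hc, mul_pow, mul_comm (3 : ℤ) c, zpow_mul]
      norm_cast
    apply h.e0_ne_cube (((t0 * η ^ c : (𝓞 M)ˣ) : 𝓞 M) : M)
    rw [← hE, hE3]
    push_cast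
    rfl
  obtain ⟨k, hk3, j, hj⟩ : ∃ k : ℕ, k < 3 ∧ ∃ j : ℤ, m = k * m0 + 3 * j := by
    have hcase : m0 % 3 = 1 ∨ m0 % 3 = 2 := by omega
    have hcase' : m % 3 = 0 ∨ m % 3 = 1 ∨ m % 3 = 2 := by omega
    rcases hcase with hc | hc <;> rcases hcase' with hd | hd | hd
    · exact ⟨0, by norm_num, m / 3, by push_cast; omega⟩
    · exact ⟨1, by norm_num, (m - m0) / 3, by push_cast; omega⟩
    · exact ⟨2, by norm_num, (m - 2 * m0) / 3, by push_cast; omega⟩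
    · exact ⟨0, by norm_num, m / 3, by push_cast; omega⟩
    · exact ⟨2, by norm_num, (m - 2 * m0) / 3, by push_cast; omega⟩
    · exact ⟨1, by norm_num, (m - m0) / 3, by push_cast; omega⟩
  have hmain : ε = E ^ k * (t0⁻¹ ^ k * t * η ^ j) ^ 3 := by
    have hηm : η ^ m = (η ^ m0) ^ k * (η ^ j) ^ 3 := by
      rw [hj, zpow_add, mul_comm (k : ℤ) m0, zpow_mul, zpow_natCast, mul_comm (3 : ℤ) j, zpow_mul]
      norm_cast
    have hEk : E ^ k = t0 ^ (3 * k) * (η ^ m0) ^ k := by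
      rw [hm0, ht0, mul_pow, ← pow_mul]
    rw [hm, ht, hηm, hEk, mul_pow, mul_pow, ← pow_mul t0⁻¹, inv_pow, mul_comm k 3]
    have : t0 ^ (3 * k) * (t0 ^ (3 * k))⁻¹ = 1 := mul_inv_cancel _
    calc t ^ 3 * ((η ^ m0) ^ k * (η ^ j) ^ 3)
        = (t0 ^ (3 * k) * (t0 ^ (3 * k))⁻¹) * (t ^ 3 * ((η ^ m0) ^ k * (η ^ j) ^ 3)) := by
          rw [this, one_mul]
      _ = _ := by
          simp only [mul_assoc, mul_left_comm, mul_comm]
  refine ⟨k, hk3, (((t0⁻¹ ^ k * t * η ^ j : (𝓞 M)ˣ) : 𝓞 M) : M), ?_⟩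
  rw [← hE]
  conv_lhs => rw [hmain]
  push_cast
  rfl

end KuQ
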