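import Mathlib

/-! [KuQ B3] in a PID: all valuations cubes => unit times cube (MEDIUM, only Mathlib).
Plan: 𝓞 M is a UFD. Write z = a / b, replace z by z * b^3 = a * b^2 ∈ 𝓞 M (multiplying y by b), so
z ∈ 𝓞 M, z ≠ 0. For every prime element p the multiplicity of p in z is divisible by 3 (v = span {p},
`v.valuation` of z is exp (- multiplicity), `v.valuation y` ∈ ℤᵐ⁰ is a power exp n).
Then z = unit * cube: induction on `UniqueFactorizationMonoid` (`induction_on_coprime`,
`Multiset` of normalized factors: every count divisible by 3 => the multiset is 3 • s, take the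
product), or via fractional ideals: `FractionalIdeal.finprod_heightOneSpectrum_factorization`. -/

open NumberField IsDedekindDomain

namespace KuQ

/-- the case of an integral element. -/
private theorem int_case {R : Type*} [CommRing R] [IsDedekindDomain R] [IsPrincipalIdealRing R]
    (r : R) (hr : r ≠ 0)
    (h : ∀ v : HeightOneSpectrum R,
      3 ∣ (Associates.mk v.asIdeal).count (Associates.mk (Ideal.span {r} : Ideal R)).factors) :
    ∃ (ε : Rˣ) (β : R), r = ε * β ^ 3 := by
  classical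
  have hne : Associates.mk (Ideal.span {r} : Ideal R) ≠ 0 := by
    rw [Ne, Associates.mk_eq_zero, Ideal.zero_eq_bot, Ideal.span_singleton_eq_bot]
    exact hr
  obtain ⟨b, hb⟩ := Associates.is_pow_of_dvd_count hne (k := 3) (fun p hp => by
    obtain ⟨P, rfl⟩ := Associates.mk_surjective p
    have hPi : Irreducible P := Associates.irreducible_mk.1 hp
    have hPp : Prime P := hPi.prime
    exact h ⟨P, Ideal.isPrime_of_prime hPp, hPp.ne_zero⟩)
  obtain ⟨J, rfl⟩ := Associates.mk_surjective b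
  rw [← Associates.mk_pow, Associates.mk_eq_mk_iff_associated, associated_iff_eq] at hb
  obtain ⟨β, rfl⟩ := (IsPrincipalIdealRing.principal J).principal
  rw [Ideal.submodule_span_eq, Ideal.span_singleton_pow,
    Ideal.span_singleton_eq_span_singleton] at hb
  obtain ⟨ε, hε⟩ := hb.symm
  exact ⟨ε, β, by rw [← hε, mul_comm]⟩

theorem eq_unit_mul_cube {M : Type*} [Field M] [NumberField M] [IsPrincipalIdealRing (𝓞 M)]
    (z : M) (hz : z ≠ 0)
    (h : ∀ v : HeightOneSpectrum (𝓞 M), ∃ y : M, y ≠ 0 ∧ v.valuation M z = v.valuation M y ^ 3) :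
    ∃ (ε : (𝓞 M)ˣ) (β : M), z = ((ε : 𝓞 M) : M) * β ^ 3 := by
  obtain ⟨a, b, hb, rfl⟩ := IsFractionRing.div_surjective (A := 𝓞 M) z
  have hb0 : b ≠ 0 := nonZeroDivisors.ne_zero hb
  have hbM : algebraMap (𝓞 M) M b ≠ 0 := by
    rwa [Ne, FaithfulSMul.algebraMap_eq_zero_iff]
  have ha0 : a ≠ 0 := by
    rintro rfl
    apply hz
    rw [map_zero, zero_div]
  obtain ⟨ε, β, hε⟩ := int_case (a * b ^ 2) (mul_ne_zero ha0 (pow_ne_zero 2 hb0)) (fun v => by
    obtain ⟨y, hy, hvy⟩ := h v
    have h1 : v.valuation M (algebraMap (𝓞 M) M (a * b ^ 2)) =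
        (v.valuation M (y * algebraMap (𝓞 M) M b)) ^ 3 := by
      rw [map_mul (v.valuation M), mul_pow, ← hvy, ← map_pow, ← map_mul]
      congr 1
      rw [map_mul, map_pow]
      field_simp
    have hyb : y * algebraMap (𝓞 M) M b ≠ 0 := mul_ne_zero hy hbM
    rw [HeightOneSpectrum.valuation_of_algebraMap,
      HeightOneSpectrum.intValuation_if_neg v (mul_ne_zero ha0 (pow_ne_zero 2 hb0))] at h1
    have h2 : v.valuation M (y * algebraMap (𝓞 M) M b) ≠ 0 := by
      rwa [Ne, Valuation.zero_iff]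
    rw [← WithZero.exp_log h2, ← WithZero.exp_nsmul, WithZero.exp_inj] at h1
    have h3 : (3 : ℤ) ∣ ((Associates.mk v.asIdeal).count
        (Associates.mk (Ideal.span {a * b ^ 2} : Ideal (𝓞 M))).factors : ℤ) :=
      ⟨-WithZero.log (v.valuation M (y * algebraMap (𝓞 M) M b)), by
        rw [nsmul_eq_mul] at h1
        push_cast at h1 ⊢
        linarith⟩
    exact_mod_cast h3)
  refine ⟨ε, algebraMap (𝓞 M) M β / algebraMap (𝓞 M) M b, ?_⟩
  have h4 : algebraMap (𝓞 M) M a * algebraMap (𝓞 M) M b ^ 2 =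
      algebraMap (𝓞 M) M (ε : 𝓞 M) * algebraMap (𝓞 M) M β ^ 3 := by
    rw [← map_pow, ← map_pow, ← map_mul, ← map_mul, hε]
  change _ = algebraMap (𝓞 M) M (ε : 𝓞 M) * _
  rw [div_pow, mul_div_assoc', ← h4]
  field_simp

end KuQ
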