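import Pool.Agent.LibKuQ.A5c
import Pool.Agent.LibKuQ.A7
import Pool.Agent.LibKuQ.B1
import Pool.Agent.LibKuQ.B2
import Pool.Agent.LibKuQ.B3

/-! [KuQ B5] assembly (helper21). -/

open NumberField Module Polynomial IsDedekindDomain

namespace KuQ

theorem exists_prime_mem {M : Type*} [Field M] [NumberField M] (P : Ideal (𝓞 M)) [hP : P.IsPrime]
    (h0 : P ≠ ⊥) : ∃ q : ℕ, q.Prime ∧ (q : 𝓞 M) ∈ P := by
  have hN : Ideal.absNorm P ≠ 0 := by
    rw [Ne, Ideal.absNorm_eq_zero_iff]; exact h0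
  have hmem : ((Ideal.absNorm P : ℕ) : 𝓞 M) ∈ P := Ideal.absNorm_mem P
  have key : ∀ n : ℕ, n ≠ 0 → ((n : ℕ) : 𝓞 M) ∈ P → ∃ q : ℕ, q.Prime ∧ (q : 𝓞 M) ∈ P := by
    intro n
    induction n using Nat.recOnMul with
    | zero => intro h; exact absurd rfl h
    | one => intro _ h; exact absurd (by simpa using h) ((Ideal.ne_top_iff_one P).mp hP.ne_top)
    | prime q hq => intro _ h; exact ⟨q, hq, h⟩
    | mul a b iha ihb =>
      intro hab h
      rw [Nat.cast_mul] at h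
      rcases hP.mem_or_mem h with h | h
      · exact iha (fun h => hab (by simp [h])) h
      · exact ihb (fun h => hab (by simp [h])) h
  exact key _ hN hmem

/-- B5 : final statement, abstract number field -/
theorem QF.main {M : Type*} [Field M] [NumberField M] {u : M} (h : QF u)
    (j : M →+* AlgebraicClosure ℚ) (z : M) (hz : z ≠ 0)
    (hloc : ∀ (q : ℕ) [Fact q.Prime],
      ∀ ι : AlgebraicClosure ℚ →+* PadicAlgCl q, ∃ y : M, ‖ι (j z)‖ = ‖ι (j y)‖ ^ 3) :
    ∃ n : ℕ, n < 3 ∧ ∃ β : M, z = e0 u ^ n * β ^ 3 := by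
  have := h.isPrincipalIdealRing
  obtain ⟨ε, β, hβ⟩ := eq_unit_mul_cube z hz (by
    intro v
    have := v.isPrime
    obtain ⟨q, hq, hqv⟩ := exists_prime_mem v.asIdeal v.ne_bot
    have : Fact q.Prime := ⟨hq⟩
    obtain ⟨ι, hι⟩ := exists_embedding j v.asIdeal q hqv
    obtain ⟨y, hy⟩ := hloc q ι
    have hz' : ‖ι (j z)‖ ≠ 0 := by
      rw [Ne, norm_eq_zero, map_eq_zero, map_eq_zero]; exact hz
    have hy0 : y ≠ 0 := by
      rintro rfl
      apply hz'; rw [hy]; simp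
    refine ⟨y, hy0, ?_⟩
    have h1 : v.valuation M (z / y ^ 3) = 1 := by
      refine valuation_eq_one v (ι.comp j) hι _ ?_
      have hy' : ‖ι (j y)‖ ≠ 0 := by
        rw [Ne, norm_eq_zero, map_eq_zero, map_eq_zero]; exact hy0
      rw [RingHom.comp_apply, map_div₀, map_div₀, map_pow, map_pow, norm_div, norm_pow, hy]
      exact div_self (pow_ne_zero _ hy')
    rw [map_div₀, map_pow] at h1
    have hv0 : v.valuation M y ^ 3 ≠ 0 := pow_ne_zero _ ((Valuation.ne_zero_iff _).mpr hy0)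
    rwa [div_eq_one_iff_eq hv0] at h1)
  obtain ⟨n, hn, y, hy⟩ := h.unit_eq ε
  refine ⟨n, hn, y * β, ?_⟩
  rw [hβ, hy]; ring

end KuQ
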