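import Pool.Agent.LibKuQ.Defs

open NumberField Module Polynomial

namespace KuQ
variable {M : Type*} [Field M] [NumberField M] {u : M}

private theorem irr_int : Irreducible (X ^ 4 + C 4 * X ^ 2 + C 6 : ℤ[X]) := by
  have hdeg : (X ^ 4 + C 4 * X ^ 2 + C 6 : ℤ[X]).natDegree = 4 := by compute_degree!
  have hmon : (X ^ 4 + C 4 * X ^ 2 + C 6 : ℤ[X]).Monic := by monicity!
  have hprime : (Ideal.span {(2 : ℤ)}).IsPrime :=
    (Ideal.span_singleton_prime (by norm_num)).mpr Int.prime_two
  refine irreducible_of_eisenstein_criterion hprime ?_ ?_ ?_ ?_ hmon.isPrimitive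
  · rw [hmon.leadingCoeff, Ideal.mem_span_singleton]; norm_num
  · intro n hn
    rw [Polynomial.degree_eq_natDegree hmon.ne_zero, hdeg] at hn
    have hn' : n < 4 := by exact_mod_cast hn
    rw [Ideal.mem_span_singleton]
    interval_cases n <;> simp [coeff_X_pow]
  · rw [Polynomial.degree_eq_natDegree hmon.ne_zero, hdeg]; norm_num
  · rw [Ideal.span_singleton_pow, Ideal.mem_span_singleton]
    simp

private theorem monic_int : (X ^ 4 + C 4 * X ^ 2 + C 6 : ℤ[X]).Monic := by monicity!

private theorem irr_rat : Irreducible (X ^ 4 + C 4 * X ^ 2 + C 6 : ℚ[X]) := by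
  have := (monic_int.irreducible_iff_irreducible_map_fraction_map (K := ℚ)).mp irr_int
  have e : (X ^ 4 + C 4 * X ^ 2 + C 6 : ℤ[X]).map (algebraMap ℤ ℚ) = X ^ 4 + C 4 * X ^ 2 + C 6 := by
    simp only [Polynomial.map_add, Polynomial.map_mul, Polynomial.map_pow, map_X, map_C]
    congr 1
  rwa [e] at this

private theorem monic_rat : (X ^ 4 + C 4 * X ^ 2 + C 6 : ℚ[X]).Monic := by monicity!

private theorem deg_rat : (X ^ 4 + C 4 * X ^ 2 + C 6 : ℚ[X]).natDegree = 4 := by compute_degree!

theorem QF.isIntegral (h : QF u) : IsIntegral ℤ u := by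
  refine ⟨X ^ 4 + C 4 * X ^ 2 + C 6, monic_int, ?_⟩
  simp only [eval₂_add, eval₂_mul, eval₂_pow, eval₂_X, eval₂_C, map_ofNat]
  simpa using h.root

theorem QF.minpoly_eq (h : QF u) : minpoly ℚ u = X ^ 4 + C 4 * X ^ 2 + C 6 := by
  refine (minpoly.eq_of_irreducible_of_monic irr_rat ?_ monic_rat).symm
  simp only [map_add, map_mul, map_pow, aeval_X, aeval_C]
  have := h.root
  simpa using this

theorem QF.finrank_eq (h : QF u) : finrank ℚ M = 4 := by
  have hi : IsIntegral ℚ u := h.isIntegral.tower_top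
  have h1 := IntermediateField.adjoin.finrank hi
  rw [h.top, IntermediateField.finrank_top', h.minpoly_eq, deg_rat] at h1
  exact h1

theorem QF.exists_el (h : QF u) (x : M) : ∃ a b c d : ℚ, x = el u a b c d := by
  have hi : IsIntegral ℚ u := h.isIntegral.tower_top
  have hx : x ∈ IntermediateField.adjoin ℚ {u} := by rw [h.top]; trivial
  rw [← IntermediateField.mem_toSubalgebra,
    IntermediateField.adjoin_simple_toSubalgebra_of_isAlgebraic hi.isAlgebraic] at hx
  induction hx using Algebra.adjoin_induction with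
  | mem y hy =>
    rw [Set.mem_singleton_iff] at hy
    exact ⟨0, 1, 0, 0, by simp [el, hy]⟩
  | algebraMap r => exact ⟨r, 0, 0, 0, by simp [el]⟩
  | add y z _ _ hy hz =>
    obtain ⟨a, b, c, d, rfl⟩ := hy
    obtain ⟨a', b', c', d', rfl⟩ := hz
    exact ⟨a + a', b + b', c + c', d + d', by unfold el; push_cast; ring⟩
  | mul y z _ _ hy hz =>
    obtain ⟨a, b, c, d, rfl⟩ := hy
    obtain ⟨a', b', c', d', rfl⟩ := hz
    have hr := h.root
    refine ⟨a * a' - 6 * (b * d' + c * c' + d * b') + 24 * d * d', 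
      a * b' + b * a' - 6 * (c * d' + d * c'),
      a * c' + b * b' + c * a' - 4 * (b * d' + c * c' + d * b') + 10 * d * d', 
      a * d' + b * c' + c * b' + d * a' - 4 * (c * d' + d * c'), ?_⟩
    unfold el; push_cast
    linear_combination ((b * d' + c * c' + d * b' : M) + (c * d' + d * c') * u
      + d * d' * u ^ 2 - 4 * (d * d')) * hr

theorem QF.el_eq_zero (h : QF u) {a b c d : ℚ} (h0 : el u a b c d = 0) :
    a = 0 ∧ b = 0 ∧ c = 0 ∧ d = 0 := by
  have hp : (C d * X ^ 3 + C c * X ^ 2 + C b * X + C a : ℚ[X]) = 0 := by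
    by_contra hne
    have hdeg := minpoly.degree_le_of_ne_zero ℚ u hne (by
      simp only [map_add, map_mul, map_pow, aeval_X, aeval_C]
      have : (algebraMap ℚ M) = Rat.castHom M := Subsingleton.elim _ _
      rw [this]
      simp only [Rat.coe_castHom]
      unfold el at h0
      linear_combination h0)
    rw [h.minpoly_eq, Polynomial.degree_eq_natDegree monic_rat.ne_zero, deg_rat] at hdeg
    have h4 : (C d * X ^ 3 + C c * X ^ 2 + C b * X + C a : ℚ[X]).degree ≤ 3 := degree_cubic_le
    have := hdeg.trans h4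
    norm_num at this
  have e := fun n => congrArg (fun p => coeff p n) hp
  have e0 := e 0; have e1 := e 1; have e2 := e 2; have e3 := e 3
  simp [coeff_X, coeff_C, coeff_X_pow] at e0 e1 e2 e3
  exact ⟨e0, e1, e2, e3⟩

end KuQ
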