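import Pool.Agent.LibKuQ.A1

open NumberField Module Polynomial

namespace KuQ
variable {M : Type*} [Field M] [NumberField M] {u : M}

private theorem lin_indep (h : QF u) : LinearIndependent ℚ ![(1 : M), u, u ^ 2, u ^ 3] := by
  rw [Fintype.linearIndependent_iff]
  intro g hg
  have h0 : el u (g 0) (g 1) (g 2) (g 3) = 0 := by
    unfold el
    rw [Fin.sum_univ_four] at hg
    simp only [Rat.smul_def] at hg
    simpa using hg
  obtain ⟨h1, h2, h3, h4⟩ := h.el_eq_zero h0
  intro i
  fin_cases i <;> assumption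

/-- the basis 1, u, u^2, u^3 -/
noncomputable def QF.basis (h : QF u) : Basis (Fin 4) ℚ M :=
  basisOfLinearIndependentOfCardEqFinrank (lin_indep h) (by rw [h.finrank_eq]; rfl)

theorem QF.basis_apply (h : QF u) (i : Fin 4) : h.basis i = u ^ (i : ℕ) := by
  unfold QF.basis
  rw [coe_basisOfLinearIndependentOfCardEqFinrank]
  fin_cases i <;> simp

theorem QF.repr_el (h : QF u) (a b c d : ℚ) (i : Fin 4) :
    h.basis.repr (el u a b c d) i = ![a, b, c, d] i := by
  have e : el u a b c d = ∑ j : Fin 4, (![a, b, c, d] j) • h.basis j := by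
    rw [Fin.sum_univ_four]
    simp only [h.basis_apply, Rat.smul_def]
    unfold el
    simp
  rw [e, map_sum, Finsupp.coe_finsetSum, Finset.sum_apply]
  simp only [map_smul, Basis.repr_self, Finsupp.smul_apply, Finsupp.single_apply, smul_eq_mul]
  rw [Fin.sum_univ_four]
  fin_cases i <;> simp

theorem QF.el_mul_pow (h : QF u) (a b c d : ℚ) :
    el u a b c d * u = el u (-6 * d) a (b - 4 * d) c := by
  unfold el; push_cast; linear_combination (d : M) * h.root

theorem QF.norm_el (h : QF u) (a b c d : ℚ) :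
    Algebra.norm ℚ (el u a b c d) = nr a b c d := by
  rw [Algebra.norm_eq_matrix_det h.basis]
  have hm : Algebra.leftMulMatrix h.basis (el u a b c d) =
      !![a, -6 * d, -6 * c, -6 * (b - 4 * d);
         b, a, -6 * d, -6 * c;
         c, b - 4 * d, a - 4 * c, -6 * d - 4 * (b - 4 * d);
         d, c, b - 4 * d, a - 4 * c] := by
    ext i j
    rw [Algebra.leftMulMatrix_eq_repr_mul]
    have e0 : el u a b c d * h.basis 0 = el u a b c d := by rw [h.basis_apply]; simp
    have e1 : el u a b c d * h.basis 1 = el u (-6 * d) a (b - 4 * d) c := by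
      rw [h.basis_apply]; simpa using h.el_mul_pow a b c d
    have e2 : el u a b c d * h.basis 2 = el u (-6 * c) (-6 * d) (a - 4 * c) (b - 4 * d) := by
      rw [h.basis_apply]
      have : u ^ ((2 : Fin 4) : ℕ) = u * u := by simp [pow_two]
      rw [this, ← mul_assoc, h.el_mul_pow, h.el_mul_pow]
    have e3 : el u a b c d * h.basis 3 =
        el u (-6 * (b - 4 * d)) (-6 * c) (-6 * d - 4 * (b - 4 * d)) (a - 4 * c) := by
      rw [h.basis_apply]
      have : u ^ ((3 : Fin 4) : ℕ) = u * u * u := by
        have : ((3 : Fin 4) : ℕ) = 3 := rfl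
        rw [this]; ring
      rw [this, ← mul_assoc, ← mul_assoc, h.el_mul_pow, h.el_mul_pow, h.el_mul_pow]
    fin_cases j
    · change h.basis.repr (el u a b c d * h.basis 0) i = _
      rw [e0, h.repr_el]; fin_cases i <;> rfl
    · change h.basis.repr (el u a b c d * h.basis 1) i = _
      rw [e1, h.repr_el]; fin_cases i <;> rfl
    · change h.basis.repr (el u a b c d * h.basis 2) i = _
      rw [e2, h.repr_el]; fin_cases i <;> rfl
    · change h.basis.repr (el u a b c d * h.basis 3) i = _
      rw [e3, h.repr_el]; fin_cases i <;> rfl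
  rw [hm]
  simp only [Matrix.det_succ_row_zero, Matrix.det_fin_zero, Fin.sum_univ_succ, Fin.sum_univ_zero]
  simp [Matrix.submatrix, Fin.succAbove]
  unfold nr nrA nrB
  ring

theorem QF.absNorm_span (h : QF u) (x : 𝓞 M) (a b c d : ℤ)
    (hx : (x : M) = el u a b c d) (n : ℕ) (hn : nr a b c d = n) :
    Ideal.absNorm (Ideal.span {x}) = n := by
  rw [Ideal.absNorm_span_singleton]
  have h1 : (Algebra.norm ℤ x : ℚ) = n := by
    rw [Algebra.coe_norm_int, hx, h.norm_el, hn]
  have h2 : Algebra.norm ℤ x = (n : ℤ) := by exact_mod_cast h1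
  rw [h2]; rfl

end KuQ
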