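import Pool.Agent.LibKuQ.A2

/-! [KuQ A3] the discriminant is at most 6144 (MEDIUM).
Plan: let b be the basis 1, u, u^2, u^3 (power basis). `Algebra.discr ℚ b = 6144`:
`Algebra.discr_powerBasis_eq_norm`: discr = (-1)^(n(n-1)/2) * norm (aeval u (minpoly.derivative)),
n = 4, derivative = 4u^3 + 8u = el 0 8 0 4, `nr 0 8 0 4 = 6144` (norm_num with norm_el).
All b i are integral (QF.isIntegral), so b = P * integralBasis with an integer matrix P and
`Algebra.discr_of_matrix_vecMul` / `Algebra.discr_of_matrix_mulVec` gives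
6144 = (det P)^2 * discr M, det P ≠ 0 an integer, hence |discr M| ≤ 6144.
(Look at `Algebra.discr_eq_discr_of_toMatrix_coeff_isIntegral` in
Mathlib/NumberTheory/NumberField/Discriminant/Defs.lean for the tools.) -/

open NumberField Module Polynomial

namespace KuQ
variable {M : Type*} [Field M] [NumberField M] {u : M}

private theorem A3_li (h : QF u) : LinearIndependent ℚ (fun i : Fin 4 => u ^ (i : ℕ)) := by
  rw [Fintype.linearIndependent_iff]
  intro g hg
  rw [Fin.sum_univ_four] at hg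
  simp only [Algebra.smul_def, eq_ratCast] at hg
  have h0 : el u (g 0) (g 1) (g 2) (g 3) = 0 := by
    rw [← hg]
    unfold el
    simp
  obtain ⟨h1, h2, h3, h4⟩ := h.el_eq_zero h0
  intro i
  fin_cases i
  · exact h1
  · exact h2
  · exact h3
  · exact h4

private noncomputable def A3_bas (h : QF u) : Basis (Fin 4) ℚ M :=
  basisOfLinearIndependentOfCardEqFinrank (A3_li h) (by rw [h.finrank_eq, Fintype.card_fin])

private theorem A3_bas_apply (h : QF u) (i : Fin 4) : A3_bas h i = u ^ (i : ℕ) := by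
  unfold A3_bas
  rw [coe_basisOfLinearIndependentOfCardEqFinrank]

private def A3_mat (a b c d : ℚ) : Matrix (Fin 4) (Fin 4) ℚ :=
  !![a, -6 * d, -6 * c, -6 * b + 24 * d;
     b, a, -6 * d, -6 * c;
     c, b - 4 * d, a - 4 * c, -4 * b + 10 * d;
     d, c, b - 4 * d, a - 4 * c]

private theorem A3_left (h : QF u) (a b c d : ℚ) :
    Algebra.leftMulMatrix (A3_bas h) (el u a b c d) = A3_mat a b c d := by
  ext i j
  rw [Algebra.leftMulMatrix_eq_repr_mul]
  have hr := h.root
  have key : el u a b c d * A3_bas h j = ∑ i, A3_mat a b c d i j • A3_bas h i := by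
    simp only [A3_bas_apply, Algebra.smul_def, eq_ratCast, Fin.sum_univ_four]
    unfold el A3_mat
    fin_cases j
    · simp
    · simp
      linear_combination (d : M) * hr
    · simp
      linear_combination ((c : M) + d * u) * hr
    · simp
      linear_combination ((b : M) + c * u + d * u ^ 2 - 4 * d) * hr
  rw [key, Basis.repr_sum_self]

private theorem A3_trace (h : QF u) (a b c d : ℚ) :
    Algebra.trace ℚ M (el u a b c d) = 4 * a - 8 * c := by
  rw [Algebra.trace_eq_matrix_trace (A3_bas h), A3_left]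
  simp [Matrix.trace, Fin.sum_univ_four, A3_mat]
  ring

private theorem A3_pow (h : QF u) : Algebra.trace ℚ M (u ^ 0) = 4 ∧
    Algebra.trace ℚ M (u ^ 1) = 0 ∧ Algebra.trace ℚ M (u ^ 2) = -8 ∧
    Algebra.trace ℚ M (u ^ 3) = 0 ∧ Algebra.trace ℚ M (u ^ 4) = 8 ∧
    Algebra.trace ℚ M (u ^ 5) = 0 ∧ Algebra.trace ℚ M (u ^ 6) = 16 := by
  have hr := h.root
  refine ⟨?_, ?_, ?_, ?_, ?_, ?_, ?_⟩
  · have e : u ^ 0 = el u 1 0 0 0 := by simp [el]
    rw [e, A3_trace h]
    norm_num
  · have e : u ^ 1 = el u 0 1 0 0 := by simp [el]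
    rw [e, A3_trace h]
    norm_num
  · have e : u ^ 2 = el u 0 0 1 0 := by simp [el]
    rw [e, A3_trace h]
    norm_num
  · have e : u ^ 3 = el u 0 0 0 1 := by simp [el]
    rw [e, A3_trace h]
    norm_num
  · have e : u ^ 4 = el u (-6) 0 (-4) 0 := by
      unfold el
      push_cast
      linear_combination hr
    rw [e, A3_trace h]
    norm_num
  · have e : u ^ 5 = el u 0 (-6) 0 (-4) := by
      unfold el
      push_cast
      linear_combination u * hr
    rw [e, A3_trace h]
    norm_num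
  · have e : u ^ 6 = el u 24 0 10 0 := by
      unfold el
      push_cast
      linear_combination (u ^ 2 - 4) * hr
    rw [e, A3_trace h]
    norm_num

private theorem A3_det : (!![4, 0, -8, 0; 0, -8, 0, 8; -8, 0, 8, 0; 0, 8, 0, 16] :
    Matrix (Fin 4) (Fin 4) ℤ).det = 6144 := by
  rw [Matrix.det_succ_row_zero]
  simp [Fin.sum_univ_succ, Matrix.det_fin_three, Matrix.submatrix, Fin.succAbove]

private theorem A3_disc (h : QF u) (θ : 𝓞 M) (hθ : (θ : M) = u) :
    Algebra.discr ℤ (fun i : Fin 4 => θ ^ (i : ℕ)) = 6144 := by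
  rw [Algebra.discr_def, ← A3_det]
  congr 1
  have key : ∀ i j : Fin 4, ((Algebra.traceMatrix ℤ (fun i : Fin 4 => θ ^ (i : ℕ)) i j : ℤ) : ℚ) =
      Algebra.trace ℚ M (u ^ ((i : ℕ) + (j : ℕ))) := by
    intro i j
    rw [Algebra.traceMatrix_apply, Algebra.traceForm_apply, Algebra.coe_trace_int, ← pow_add]
    congr 1
    rw [← hθ]
    push_cast
    rfl
  obtain ⟨t0, t1, t2, t3, t4, t5, t6⟩ := A3_pow h
  rw [pow_zero] at t0
  rw [pow_one] at t1
  ext i j
  apply Int.cast_injective (α := ℚ)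
  rw [key]
  fin_cases i <;> fin_cases j <;>
    simp only [Fin.zero_eta, Fin.mk_one, Fin.reduceFinMk, Nat.reduceAdd, Fin.isValue] <;>
    simp <;> norm_num [t0, t1, t2, t3, t4, t5, t6]

theorem QF.abs_discr_le (h : QF u) : |discr M| ≤ 6144 := by
  classical
  let θ : 𝓞 M := ⟨u, h.isIntegral⟩
  have hθ : (θ : M) = u := rfl
  have hd := A3_disc h θ hθ
  let e := (integralBasis M).indexEquiv (A3_bas h)
  let bb : Basis (Fin 4) ℤ (𝓞 M) := (RingOfIntegers.basis M).reindex e
  have h1 := discr_eq_discr M bb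
  have h2 := Algebra.discr_of_matrix_vecMul bb (bb.toMatrix (fun i : Fin 4 => θ ^ (i : ℕ)))
  rw [Basis.toMatrix_map_vecMul, hd, h1] at h2
  obtain ⟨D, hD⟩ : ∃ D : ℤ, D = (bb.toMatrix (fun i : Fin 4 => θ ^ (i : ℕ))).det := ⟨_, rfl⟩
  rw [← hD] at h2
  have hD0 : D ≠ 0 := by
    rintro rfl
    norm_num at h2
  have hD1 : 1 ≤ D ^ 2 := by
    have : 0 < D ^ 2 := by positivity
    linarith
  have h3 : (6144 : ℤ) = D ^ 2 * |discr M| := by
    have := congrArg abs h2
    rw [abs_mul, abs_of_nonneg (by positivity : (0 : ℤ) ≤ D ^ 2)] at this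
    rw [← this]
    norm_num
  nlinarith [abs_nonneg (discr M)]

end KuQ
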