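import Pool.Agent.LibKuQ.A1

/-! [KuQ A4] M is totally complex, unit rank 1 (SHORT/MEDIUM).
Plan: a real place gives a real embedding, so a real r with r^4 + 4r^2 + 6 = 0, absurd.
(`InfinitePlace.not_isReal_iff_isComplex`, `InfinitePlace.embedding_of_isReal`, or
`NumberField.IsTotallyComplex`.) `InfinitePlace.card_add_two_mul_card_eq_rank` :
nrRealPlaces + 2 * nrComplexPlaces = finrank = 4. rank = card of infinite places - 1. -/

open NumberField Module Polynomial

namespace KuQ
variable {M : Type*} [Field M] [NumberField M] {u : M}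

private theorem A4_not_real (h : QF u) (w : InfinitePlace M) : ¬ w.IsReal := by
  intro hw
  have h1 := congrArg (InfinitePlace.embedding_of_isReal hw) h.root
  simp only [map_add, map_mul, map_pow, map_zero, map_ofNat] at h1
  nlinarith [sq_nonneg ((InfinitePlace.embedding_of_isReal hw) u ^ 2 + 2)]

theorem QF.nrRealPlaces_eq (h : QF u) : InfinitePlace.nrRealPlaces M = 0 := by
  classical
  have : IsEmpty { w : InfinitePlace M // w.IsReal } := ⟨fun w => A4_not_real h w.1 w.2⟩
  exact Fintype.card_eq_zero

theorem QF.nrComplexPlaces_eq (h : QF u) : InfinitePlace.nrComplexPlaces M = 2 := by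
  have h1 := InfinitePlace.card_add_two_mul_card_eq_rank M
  rw [h.nrRealPlaces_eq, h.finrank_eq] at h1
  omega

theorem QF.rank_eq (h : QF u) : Units.rank M = 1 := by
  unfold Units.rank
  rw [InfinitePlace.card_eq_nrRealPlaces_add_nrComplexPlaces, h.nrRealPlaces_eq,
    h.nrComplexPlaces_eq]

end KuQ
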