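import Pool.Agent.LibKuQ.A2

/-! [KuQ A5a] the primes above 2 and 3 (MEDIUM).
Tool (prove it first): if P is a nonzero prime, g ∈ P and absNorm (span {g}) is a prime number
(or: absNorm (span{g}) ≤ absNorm P), then P = span {g}: P ∣ span {g} (`Ideal.dvd_iff_le`),
span {g} = P * J, absNorm multiplicative (`Ideal.absNorm` is a monoid hom), absNorm P ≠ 1, so
absNorm J = 1, J = ⊤ (`Ideal.absNorm_eq_one_iff`).
Norms from `QF.absNorm_span`: nr 2 1 1 0 = 2, nr 3 1 1 0 = 3, nr 1 0 1 0 = 9 (norm_num [nr,nrA,nrB]).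
2 ∈ P: u^4 = -4u^2 - 6 ∈ P so U ∈ P (U := ⟨u, h.isIntegral⟩ : 𝓞 M), hence 2 + U + U^2 ∈ P.
3 ∈ P: U^4 + U^2 = -3U^2 - 6 ∈ P, so U ∈ P or 1 + U^2 ∈ P. If U ∈ P then 3 + U + U^2 ∈ P.
If w = 1 + U^2 ∈ P and U ∉ P: w ∣ 3 with norm 9; need P = span {w}: the absNorm of P is 3 or 9
(divides 9, not 1); it is not 3, because in a residue ring of 3 elements (`ZMod 3`) the equation
x^2 + 1 = 0 has no solution (or: card 3 => x^3 = x for all x, so U^3 = U mod P, with U^2 = -1:
U^3 = -U, so 2U ∈ P, U ∈ P). -/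

open NumberField Module Polynomial

namespace KuQ
variable {M : Type*} [Field M] [NumberField M] {u : M}

theorem eq_span_of_absNorm_le (P : Ideal (𝓞 M)) [P.IsPrime] (h0 : P ≠ ⊥) (g : 𝓞 M) (hg : g ∈ P)
    (hg0 : g ≠ 0) (hn : Ideal.absNorm (Ideal.span {g}) ≤ Ideal.absNorm P) :
    P = Ideal.span {g} := by
  have hle : Ideal.span {g} ≤ P := (Ideal.span_singleton_le_iff_mem P).2 hg
  obtain ⟨J, hJ⟩ := Ideal.dvd_iff_le.2 hle
  have hP0 : Ideal.absNorm P ≠ 0 := fun h => h0 (Ideal.absNorm_eq_zero_iff.1 h)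
  have hg1 : Ideal.absNorm (Ideal.span {g}) ≠ 0 := by
    intro h
    exact hg0 (Ideal.span_singleton_eq_bot.1 (Ideal.absNorm_eq_zero_iff.1 h))
  have hm : Ideal.absNorm (Ideal.span {g}) = Ideal.absNorm P * Ideal.absNorm J := by
    rw [hJ, map_mul]
  have hJ1 : Ideal.absNorm J = 1 := by
    have h1 : Ideal.absNorm J ≠ 0 := by
      intro h
      rw [h, mul_zero] at hm
      exact hg1 hm
    have h2 : Ideal.absNorm P * Ideal.absNorm J ≤ Ideal.absNorm P * 1 := by
      rw [← hm, mul_one]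
      exact hn
    have h3 := Nat.le_of_mul_le_mul_left h2 (Nat.pos_of_ne_zero hP0)
    omega
  rw [hJ, Ideal.absNorm_eq_one_iff.1 hJ1, Ideal.mul_top]

private theorem A5a_ne_one (P : Ideal (𝓞 M)) [hP : P.IsPrime] : Ideal.absNorm P ≠ 1 := fun h =>
  hP.ne_top (Ideal.absNorm_eq_one_iff.1 h)

private theorem A5a_dvd (P : Ideal (𝓞 M)) (g : 𝓞 M) (hg : g ∈ P) :
    Ideal.absNorm P ∣ Ideal.absNorm (Ideal.span {g}) :=
  Ideal.absNorm_dvd_absNorm_of_le ((Ideal.span_singleton_le_iff_mem P).2 hg)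

private theorem A5a_ne_bot (P : Ideal (𝓞 M)) (n : ℕ) [NeZero n] (hn : (n : 𝓞 M) ∈ P) : P ≠ ⊥ := by
  rintro rfl
  rw [Ideal.mem_bot] at hn
  have h1 : (n : 𝓞 M) ≠ 0 := Nat.cast_ne_zero.2 (NeZero.ne n)
  exact h1 hn

private theorem A5a_zero (g : 𝓞 M) (n : ℕ) (hn : n ≠ 0)
    (h : Ideal.absNorm (Ideal.span {g}) = n) : g ≠ 0 := by
  rintro rfl
  rw [Ideal.span_singleton_zero, Ideal.absNorm_bot] at h
  exact hn h.symm

theorem QF.eq_span_of_two_mem (h : QF u) (P : Ideal (𝓞 M)) [P.IsPrime] (h2 : (2 : 𝓞 M) ∈ P)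
    (g : 𝓞 M) (hg : (g : M) = 2 + u + u ^ 2) : P = Ideal.span {g} := by
  have hP : P.IsPrime := inferInstance
  have hint : IsIntegral ℤ u := h.isIntegral
  set U : 𝓞 M := ⟨u, hint⟩ with hU
  have hUu : (U : M) = u := rfl
  have hn : Ideal.absNorm (Ideal.span {g}) = 2 := by
    refine h.absNorm_span g 2 1 1 0 ?_ 2 ?_
    · rw [hg]
      simp [el]
    · norm_num [nr, nrA, nrB]
  have hroot : U ^ 4 + 4 * U ^ 2 + 6 = 0 := by
    apply FaithfulSMul.algebraMap_injective (𝓞 M) M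
    have h5 : algebraMap (𝓞 M) M U = u := hUu
    simp only [map_add, map_mul, map_pow, map_ofNat, map_zero, h5]
    exact h.root
  have hgU : g = 2 + U + U ^ 2 := by
    apply FaithfulSMul.algebraMap_injective (𝓞 M) M
    have h5 : algebraMap (𝓞 M) M U = u := hUu
    simp only [map_add, map_pow, map_ofNat, h5]
    exact hg
  have hU4 : U ^ 4 ∈ P := by
    have h3 : U ^ 4 = 2 * (-2 * U ^ 2 - 3) := by linear_combination hroot
    rw [h3]
    exact P.mul_mem_right _ h2
  have hUP : U ∈ P := hP.mem_of_pow_mem 4 hU4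
  have hgP : g ∈ P := by
    rw [hgU]
    exact P.add_mem (P.add_mem h2 hUP) (by
      rw [pow_two]
      exact P.mul_mem_right _ hUP)
  have hb : P ≠ ⊥ := A5a_ne_bot P 2 (by exact_mod_cast h2)
  have hd := A5a_dvd P g hgP
  rw [hn] at hd
  have hN : Ideal.absNorm P = 2 := by
    rcases (Nat.dvd_prime Nat.prime_two).1 hd with h3 | h3
    · exact absurd h3 (A5a_ne_one P)
    · exact h3
  exact eq_span_of_absNorm_le P hb g hgP (A5a_zero g 2 (by norm_num) hn) (by rw [hn, hN])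

/-- a prime with three residues contains x^3 - x -/
private theorem A5a_cube (P : Ideal (𝓞 M)) [hP : P.IsPrime] (h0 : P ≠ ⊥)
    (h3 : Ideal.absNorm P = 3) (x : 𝓞 M) : x ^ 3 - x ∈ P := by
  have hmax : P.IsMaximal := hP.isMaximal h0
  let _ : Field (𝓞 M ⧸ P) := Ideal.Quotient.field P
  have : Finite (𝓞 M ⧸ P) := Ideal.finiteQuotientOfFreeOfNeBot P h0
  let _ : Fintype (𝓞 M ⧸ P) := Fintype.ofFinite _
  have hc : Fintype.card (𝓞 M ⧸ P) = 3 := by
    rw [← Nat.card_eq_fintype_card, ← h3, Ideal.absNorm_apply, Submodule.cardQuot_apply]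
  have h4 := FiniteField.pow_card (Ideal.Quotient.mk P x)
  rw [hc, ← map_pow] at h4
  exact Ideal.Quotient.eq.1 h4

theorem QF.eq_span_of_three_mem (h : QF u) (P : Ideal (𝓞 M)) [P.IsPrime] (h3 : (3 : 𝓞 M) ∈ P)
    (U g w : 𝓞 M) (hU : (U : M) = u) (hg : (g : M) = 3 + u + u ^ 2) (hw : (w : M) = 1 + u ^ 2) :
    (U ∈ P ∧ P = Ideal.span {g}) ∨ (w ∈ P ∧ P = Ideal.span {w}) := by
  have hP : P.IsPrime := inferInstance
  have hb : P ≠ ⊥ := A5a_ne_bot P 3 (by exact_mod_cast h3)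
  have hng : Ideal.absNorm (Ideal.span {g}) = 3 := by
    refine h.absNorm_span g 3 1 1 0 ?_ 3 ?_
    · rw [hg]
      simp [el]
    · norm_num [nr, nrA, nrB]
  have hnw : Ideal.absNorm (Ideal.span {w}) = 9 := by
    refine h.absNorm_span w 1 0 1 0 ?_ 9 ?_
    · rw [hw]
      simp [el]
    · norm_num [nr, nrA, nrB]
  have hroot : U ^ 4 + 4 * U ^ 2 + 6 = 0 := by
    apply FaithfulSMul.algebraMap_injective (𝓞 M) M
    have h5 : algebraMap (𝓞 M) M U = u := hU
    simp only [map_add, map_mul, map_pow, map_ofNat, map_zero, h5]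
    exact h.root
  have hgU : g = 3 + U + U ^ 2 := by
    apply FaithfulSMul.algebraMap_injective (𝓞 M) M
    have h5 : algebraMap (𝓞 M) M U = u := hU
    simp only [map_add, map_pow, map_ofNat, h5]
    exact hg
  have hwU : w = 1 + U ^ 2 := by
    apply FaithfulSMul.algebraMap_injective (𝓞 M) M
    have h5 : algebraMap (𝓞 M) M U = u := hU
    simp only [map_add, map_pow, map_one, h5]
    exact hw
  by_cases hUP : U ∈ P
  · left
    have hgP : g ∈ P := by
      rw [hgU]
      exact P.add_mem (P.add_mem h3 hUP) (by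
        rw [pow_two]
        exact P.mul_mem_right _ hUP)
    have hd := A5a_dvd P g hgP
    rw [hng] at hd
    have hN : Ideal.absNorm P = 3 := by
      rcases (Nat.dvd_prime Nat.prime_three).1 hd with h4 | h4
      · exact absurd h4 (A5a_ne_one P)
      · exact h4
    exact ⟨hUP, eq_span_of_absNorm_le P hb g hgP (A5a_zero g 3 (by norm_num) hng)
      (by rw [hng, hN])⟩
  · right
    have hprod : U ^ 2 * w ∈ P := by
      have h4 : U ^ 2 * w = 3 * (-U ^ 2 - 2) := by
        rw [hwU]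
        linear_combination hroot
      rw [h4]
      exact P.mul_mem_right _ h3
    have hwP : w ∈ P := by
      rcases hP.mem_or_mem hprod with h4 | h4
      · exact absurd (hP.mem_of_pow_mem 2 h4) hUP
      · exact h4
    refine ⟨hwP, ?_⟩
    have hd := A5a_dvd P w hwP
    rw [hnw, show (9 : ℕ) = 3 ^ 2 by norm_num, Nat.dvd_prime_pow Nat.prime_three] at hd
    obtain ⟨k, hk, hN⟩ := hd
    have hk2 : k = 2 := by
      rcases Nat.lt_or_ge k 1 with h4 | h4
      · have : k = 0 := by omega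
        rw [this, pow_zero] at hN
        exact absurd hN (A5a_ne_one P)
      · rcases Nat.lt_or_ge k 2 with h5 | h5
        · exfalso
          have h6 : k = 1 := by omega
          rw [h6, pow_one] at hN
          have h7 := A5a_cube P hb hN U
          have h8 : U * w - (U ^ 3 - U) ∈ P := P.sub_mem (P.mul_mem_left _ hwP) h7
          have h9 : 3 * U - (U * w - (U ^ 3 - U)) ∈ P := P.sub_mem (P.mul_mem_right _ h3) h8
          have h10 : 3 * U - (U * w - (U ^ 3 - U)) = U := by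
            rw [hwU]
            ring
          rw [h10] at h9
          exact hUP h9
        · omega
    rw [hk2] at hN
    exact eq_span_of_absNorm_le P hb w hwP (A5a_zero w 9 (by norm_num) hnw)
      (by rw [hnw, hN]; norm_num)

end KuQ
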