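import Pool.Agent.LibKuQ.A5a

/-! [KuQ A5b] primes of norm at most 11 are principal (MEDIUM).
Plan: k = 𝓞 M ⧸ P is a finite field with N = absNorm P elements (`Submodule.cardQuot`,
`Ideal.absNorm_apply`), 2 ≤ N ≤ 11, a prime power. The prime p below (char of k) is 2, 3, 5, 7, 11;
p ∈ P. p = 2, 3: A5a. p = 5, 7: N = p (25, 49 > 11), k ≃ ZMod p (`ZMod.ringEquiv` /
`ZMod.ringEquivOfPrime`), the image x of U satisfies x^4 + 4x^2 + 6 = 0 in ZMod p: `decide` says no.
p = 11: N = 11, x = 1 or x = -1 in ZMod 11 (decide), so U - 1 ∈ P or U + 1 ∈ P, absNorm (span{U ∓ 1})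
= 11 (nr (-1) 1 0 0 = 11, nr 1 1 0 0 = 11), `eq_span_of_absNorm_le`.
Useful: the set of possible N can be handled by `interval_cases` on N = card k, with
`FiniteField.card` / `IsPrimePow`; for a card p^1 field: every x satisfies x^p = x
(`FiniteField.pow_card`). -/

open NumberField Module Polynomial

namespace KuQ
variable {M : Type*} [Field M] [NumberField M] {u : M}

private theorem A5b_zmod5 : ∀ x : ZMod 5, x ^ 4 + 4 * x ^ 2 + 6 ≠ 0 := by decide

private theorem A5b_zmod7 : ∀ x : ZMod 7, x ^ 4 + 4 * x ^ 2 + 6 ≠ 0 := by decide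

private theorem A5b_zmod11 : ∀ x : ZMod 11, x ^ 4 + 4 * x ^ 2 + 6 = 0 → x - 1 = 0 ∨ x + 1 = 0 := by
  decide

private theorem A5b_root {k : Type*} [Field k] [Fintype k] {p : ℕ} (hp : p.Prime)
    (hc : Fintype.card k = p) (y : k) (hy : y ^ 4 + 4 * y ^ 2 + 6 = 0) :
    ∃ (e : ZMod p ≃+* k) (x : ZMod p), x ^ 4 + 4 * x ^ 2 + 6 = 0 ∧ e x = y := by
  let e : ZMod p ≃+* k := ZMod.ringEquivOfPrime k hp hc
  refine ⟨e, e.symm y, ?_, by simp⟩
  have h1 := congrArg e.symm hy
  rw [map_add, map_add, map_mul, map_pow, map_pow, map_ofNat, map_ofNat, map_zero] at h1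
  exact h1

theorem QF.isPrincipal_of_absNorm_le (h : QF u) (P : Ideal (𝓞 M)) (hP : P.IsPrime)
    (h0 : P ≠ ⊥) (h11 : Ideal.absNorm P ≤ 11) : Submodule.IsPrincipal P := by
  classical
  haveI := hP
  haveI hmax : P.IsMaximal := hP.isMaximal h0
  letI : Field (𝓞 M ⧸ P) := Ideal.Quotient.field P
  haveI hfin : Finite (𝓞 M ⧸ P) := Ideal.finiteQuotientOfFreeOfNeBot P h0
  letI : Fintype (𝓞 M ⧸ P) := Fintype.ofFinite _
  have hcard : Fintype.card (𝓞 M ⧸ P) = Ideal.absNorm P := by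
    rw [← Nat.card_eq_fintype_card, Ideal.absNorm_apply, Submodule.cardQuot_apply]
  obtain ⟨U, hUc⟩ : ∃ U : 𝓞 M, algebraMap (𝓞 M) M U = u := ⟨⟨u, h.isIntegral⟩, rfl⟩
  have hroot : U ^ 4 + 4 * U ^ 2 + 6 = 0 := by
    apply RingOfIntegers.coe_injective
    rw [map_add, map_add, map_mul, map_pow, map_pow, map_ofNat, map_ofNat, map_zero, hUc]
    exact h.root
  set y : 𝓞 M ⧸ P := Ideal.Quotient.mk P U with hy
  have hyroot : y ^ 4 + 4 * y ^ 2 + 6 = 0 := by
    have h1 := congrArg (Ideal.Quotient.mk P) hroot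
    rw [map_add, map_add, map_mul, map_pow, map_pow, map_ofNat, map_ofNat, map_zero] at h1
    exact h1
  obtain ⟨p, hchar⟩ := CharP.exists (𝓞 M ⧸ P)
  obtain ⟨n, hp, hn⟩ := FiniteField.card (𝓞 M ⧸ P) p
  have hpN : p ^ (n : ℕ) ≤ 11 := by rw [← hn, hcard]; exact h11
  have hple : p ≤ 11 := le_trans (Nat.le_self_pow n.pos.ne' p) hpN
  have hpmem : (p : 𝓞 M) ∈ P := by
    rw [← Ideal.Quotient.eq_zero_iff_mem, map_natCast]
    exact CharP.cast_eq_zero _ p
  have hnone : 5 ≤ p → (n : ℕ) = 1 := by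
    intro h5
    by_contra hne
    have h2 : 2 ≤ (n : ℕ) := by have := n.pos; omega
    have : 5 ^ 2 ≤ p ^ (n : ℕ) := le_trans (Nat.pow_le_pow_left h5 2)
      (Nat.pow_le_pow_right (by omega) h2)
    omega
  interval_cases p
  · exact absurd hp (by norm_num)
  · exact absurd hp (by norm_num)
  · -- p = 2
    have h2 : (2 : 𝓞 M) ∈ P := by simpa using hpmem
    have := h.eq_span_of_two_mem P h2 (2 + U + U ^ 2)
      (by
        change algebraMap (𝓞 M) M _ = _
        rw [map_add, map_add, map_pow, map_ofNat, hUc])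
    exact ⟨⟨_, this⟩⟩
  · have h3 : (3 : 𝓞 M) ∈ P := by simpa using hpmem
    rcases h.eq_span_of_three_mem P h3 U (3 + U + U ^ 2) (1 + U ^ 2) hUc
      (by
        change algebraMap (𝓞 M) M _ = _
        rw [map_add, map_add, map_pow, map_ofNat, hUc]) (by
        change algebraMap (𝓞 M) M _ = _
        rw [map_add, map_pow, map_one, hUc]) with ⟨_, h1⟩ | ⟨_, h1⟩
    · exact ⟨⟨_, h1⟩⟩
    · exact ⟨⟨_, h1⟩⟩
  · exact absurd hp (by norm_num)
  · have hc : Fintype.card (𝓞 M ⧸ P) = 5 := by rw [hn, hnone (by norm_num)]; norm_num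
    obtain ⟨e, x, hx, _⟩ := A5b_root hp hc y hyroot
    exact absurd hx (A5b_zmod5 x)
  · exact absurd hp (by norm_num)
  · have hc : Fintype.card (𝓞 M ⧸ P) = 7 := by rw [hn, hnone (by norm_num)]; norm_num
    obtain ⟨e, x, hx, _⟩ := A5b_root hp hc y hyroot
    exact absurd hx (A5b_zmod7 x)
  · exact absurd hp (by norm_num)
  · exact absurd hp (by norm_num)
  · exact absurd hp (by norm_num)
  · have hc : Fintype.card (𝓞 M ⧸ P) = 11 := by rw [hn, hnone (by norm_num)]; norm_num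
    obtain ⟨e, x, hx, hex⟩ := A5b_root hp hc y hyroot
    have habs : Ideal.absNorm P = 11 := by rw [← hcard, hc]
    rcases A5b_zmod11 x hx with h1 | h1
    · have hmem : U - 1 ∈ P := by
        rw [← Ideal.Quotient.eq_zero_iff_mem, map_sub, map_one, ← hy, ← hex]
        have := congrArg e h1
        simpa using this
      have hcast : ((U - 1 : 𝓞 M) : M) = el u ((-1 : ℤ) : ℚ) ((1 : ℤ) : ℚ) ((0 : ℤ) : ℚ) ((0 : ℤ) : ℚ) := by
        change algebraMap (𝓞 M) M _ = _
        rw [map_sub, map_one, hUc]; unfold el; push_cast; ring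
      have hN : Ideal.absNorm (Ideal.span {U - 1}) = 11 :=
        h.absNorm_span (U - 1) (-1) 1 0 0 hcast 11 (by norm_num [nr, nrA, nrB])
      have hne : U - 1 ≠ 0 := by
        intro h0'
        rw [h0'] at hN
        simp at hN
      exact ⟨⟨_, eq_span_of_absNorm_le P h0 _ hmem hne (by rw [hN, habs])⟩⟩
    · have hmem : U + 1 ∈ P := by
        rw [← Ideal.Quotient.eq_zero_iff_mem, map_add, map_one, ← hy, ← hex]
        have := congrArg e h1
        simpa using this
      have hcast : ((U + 1 : 𝓞 M) : M) = el u ((1 : ℤ) : ℚ) ((1 : ℤ) : ℚ) ((0 : ℤ) : ℚ) ((0 : ℤ) : ℚ) := by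
        change algebraMap (𝓞 M) M _ = _
        rw [map_add, map_one, hUc]; unfold el; push_cast; ring
      have hN : Ideal.absNorm (Ideal.span {U + 1}) = 11 :=
        h.absNorm_span (U + 1) 1 1 0 0 hcast 11 (by norm_num [nr, nrA, nrB])
      have hne : U + 1 ≠ 0 := by
        intro h0'
        rw [h0'] at hN
        simp at hN
      exact ⟨⟨_, eq_span_of_absNorm_le P h0 _ hmem hne (by rw [hN, habs])⟩⟩

end KuQ
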