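import Pool.Agent.LibKuQ.A3
import Pool.Agent.LibKuQ.A4
import Pool.Agent.LibKuQ.A5b

/-! [KuQ A5c] class number one (SHORT/MEDIUM).
Plan: `RingOfIntegers.isPrincipalIdealRing_of_isPrincipal_of_norm_le_of_isPrime`
(Mathlib/NumberTheory/NumberField/ClassNumber.lean). Minkowski bound
(4/π)^2 * (4!/4^4) * sqrt |discr| ≤ (4/3.14)^2 * (3/32) * sqrt 6144 < 12 (sqrt 6144 < 78.39,
π > 3.14: `Real.pi_gt_d2`), so the natural number absNorm I is ≤ 11. -/

open NumberField Module Polynomial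

namespace KuQ
variable {M : Type*} [Field M] [NumberField M] {u : M}

theorem QF.isPrincipalIdealRing (h : QF u) : IsPrincipalIdealRing (𝓞 M) := by
  refine RingOfIntegers.isPrincipalIdealRing_of_isPrincipal_of_norm_le_of_isPrime ?_
  intro I hI hN
  refine h.isPrincipal_of_absNorm_le (I : Ideal (𝓞 M)) hI (nonZeroDivisors.coe_ne_zero I) ?_
  rw [h.finrank_eq, h.nrComplexPlaces_eq, ← Int.cast_abs] at hN
  have hd : ((|discr M| : ℤ) : ℝ) ≤ 6144 := by exact_mod_cast h.abs_discr_le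
  have hs : Real.sqrt ((|discr M| : ℤ) : ℝ) < 78.39 := by
    refine lt_of_le_of_lt (Real.sqrt_le_sqrt hd) ?_
    rw [Real.sqrt_lt' (by norm_num)]
    norm_num
  have hpi : (3.14 : ℝ) < Real.pi := Real.pi_gt_d2
  have h4 : (4 / Real.pi) ^ 2 ≤ (4 / 3.14) ^ 2 := by
    have h5 : 4 / Real.pi ≤ 4 / 3.14 := by
      apply div_le_div_of_nonneg_left (by norm_num) (by norm_num) hpi.le
    exact pow_le_pow_left₀ (by positivity) h5 2
  have hs0 : 0 ≤ Real.sqrt ((|discr M| : ℤ) : ℝ) := Real.sqrt_nonneg _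
  have h6 : (Ideal.absNorm (I : Ideal (𝓞 M)) : ℝ) < 12 := by
    refine lt_of_le_of_lt hN ?_
    have h7 : (4 / Real.pi) ^ 2 * (((Nat.factorial 4 : ℕ) : ℝ) / ((4 : ℕ) : ℝ) ^ 4 *
        Real.sqrt ((|discr M| : ℤ) : ℝ)) ≤ (4 / 3.14) ^ 2 * (((Nat.factorial 4 : ℕ) : ℝ) / ((4 : ℕ) : ℝ) ^ 4 * 78.39) := by
      gcongr
    have h8 : (4 / 3.14 : ℝ) ^ 2 * (((Nat.factorial 4 : ℕ) : ℝ) / ((4 : ℕ) : ℝ) ^ 4 * 78.39) < 12 := by
      simp only [Nat.factorial]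
      norm_num
    refine lt_of_le_of_lt ?_ h8
    exact h7
  have h9 : Ideal.absNorm (I : Ideal (𝓞 M)) < 12 := by exact_mod_cast h6
  omega

end KuQ
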