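import Mathlib

/-! Local field data at 3 (board KuQ, block C). `S = -2 - U^2` has `S^2 = -2`, `‖1 - S‖ < 1`;
`U'^2 = S - 2`. Then `ℚ_3(U, U')` has ramification index 2 and residue degree 2. -/

namespace KuQ

structure LF (U U' : PadicAlgCl 3) : Prop where
  hU : U ^ 4 + 4 * U ^ 2 + 6 = 0
  hU' : U' ^ 2 = - 4 - U ^ 2
  hS : ‖3 + U ^ 2‖ < 1

end KuQ
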