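import Pool.Agent.LibKuQ.C0

/-! [KuQ C1] norms of U, U'; S is in ℚ_3 (MEDIUM, only Mathlib).
Plan: S := -2 - U^2, S^2 = -2 (from hU), ‖1 - S‖ < 1 (hS), so ‖S‖ = 1, ‖1 + S‖ = ‖2 - (1 - S)‖ = 1
(‖2‖ = 1 in PadicAlgCl 3: `PadicAlgCl.norm_extends` / norm of the image of (2 : ℚ_[3])),
(1 - S)(1 + S) = 3 so ‖1 - S‖ = 1/3; U^2 = - S (1 - S), so ‖U‖^2 = 1/3; U'^2 = S - 2 has norm 1.
exists_s: Hensel (`hensels_lemma` for ℤ_[3]) for X^2 + 2 at 1: 1 + 2 = 3 ≡ 0, derivative 2 a unit: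
s0 ∈ ℤ_[3], s0^2 = -2; then (S - s0)(S + s0) = 0, so S = ± s0; ‖s - 1‖ = ‖S - 1‖. -/

namespace KuQ

private theorem norm_three : ‖(3 : PadicAlgCl 3)‖ = 1 / 3 := by
  have h := PadicAlgCl.norm_extends 3 (3 : ℚ_[3])
  have h2 : ((3 : ℚ_[3]) : PadicAlgCl 3) = 3 := by
    show algebraMap ℚ_[3] (PadicAlgCl 3) 3 = 3
    exact map_ofNat _ 3
  rw [h2] at h
  rw [h]
  have h3 := Padic.norm_p (p := 3)
  norm_num at h3 ⊢
  exact h3

private theorem norm_two : ‖(2 : PadicAlgCl 3)‖ = 1 := by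
  have h := PadicAlgCl.norm_extends 3 (2 : ℚ_[3])
  have h2 : ((2 : ℚ_[3]) : PadicAlgCl 3) = 2 := by
    show algebraMap ℚ_[3] (PadicAlgCl 3) 2 = 2
    exact map_ofNat _ 2
  rw [h2] at h
  rw [h]
  have h3 : ‖((2 : ℤ) : ℚ_[3])‖ = 1 := by
    rw [Padic.norm_intCast_eq_one_iff]
    exact ⟨-1, 1, by norm_num⟩
  exact_mod_cast h3

private theorem ult {a b : PadicAlgCl 3} (h : ‖b‖ < ‖a‖) : ‖a - b‖ = ‖a‖ := by
  have := IsUltrametricDist.norm_add_eq_max_of_norm_ne_norm (x := a) (y := -b)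
    (by rw [norm_neg]; exact ne_of_gt h)
  rw [sub_eq_add_neg, this, norm_neg, max_eq_left h.le]

variable {U U' : PadicAlgCl 3}

private theorem sq (h : LF U U') : (- 2 - U ^ 2) ^ 2 = -2 := by
  have := h.hU
  linear_combination this

private theorem n1S (h : LF U U') : ‖1 - (- 2 - U ^ 2)‖ < 1 := by
  have := h.hS
  have e : 1 - (- 2 - U ^ 2) = 3 + U ^ 2 := by ring
  rwa [e]

private theorem nS (h : LF U U') : ‖- 2 - U ^ 2‖ = 1 := by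
  have h1 := n1S h
  have e : (- 2 - U ^ 2) = 1 - (1 - (- 2 - U ^ 2)) := by ring
  rw [e, ult (by rw [norm_one]; exact h1), norm_one]

private theorem n1pS (h : LF U U') : ‖1 + (- 2 - U ^ 2)‖ = 1 := by
  have h1 := n1S h
  have e : 1 + (- 2 - U ^ 2) = 2 - (1 - (- 2 - U ^ 2)) := by ring
  rw [e, ult (by rw [norm_two]; exact h1), norm_two]

private theorem n1mS (h : LF U U') : ‖1 - (- 2 - U ^ 2)‖ = 1 / 3 := by
  have h1 := sq h
  have e : (1 - (- 2 - U ^ 2)) * (1 + (- 2 - U ^ 2)) = 3 := by linear_combination -h1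
  have h2 := congrArg norm e
  rw [norm_mul, n1pS h, mul_one, norm_three] at h2
  exact h2

theorem LF.norm_U {U U' : PadicAlgCl 3} (h : LF U U') : ‖U‖ ^ 2 = 1 / 3 := by
  have h1 := sq h
  have e : U ^ 2 = - (- 2 - U ^ 2) * (1 - (- 2 - U ^ 2)) := by linear_combination -h1
  rw [← norm_pow, e, norm_mul, norm_neg, nS h, one_mul, n1mS h]

theorem LF.norm_U' {U U' : PadicAlgCl 3} (h : LF U U') : ‖U'‖ = 1 := by
  have e : U' ^ 2 = -1 - (1 - (- 2 - U ^ 2)) := by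
    linear_combination h.hU'
  have h2 : ‖U' ^ 2‖ = 1 := by
    rw [e, ult (by rw [norm_neg, norm_one]; exact n1S h), norm_neg, norm_one]
  rw [norm_pow] at h2
  exact (pow_eq_one_iff_of_nonneg (norm_nonneg _) two_ne_zero).1 h2

open Polynomial in
private theorem exists_s0 : ∃ z : ℤ_[3], z ^ 2 = -2 := by
  have hF : ‖(X ^ 2 + 2 : ℤ_[3][X]).aeval (1 : ℤ_[3])‖ < ‖(derivative (X ^ 2 + 2 : ℤ_[3][X])).aeval (1 : ℤ_[3])‖ ^ 2 := by
    have e1 : (X ^ 2 + 2 : ℤ_[3][X]).aeval (1 : ℤ_[3]) = (3 : ℤ_[3]) := by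
      simp
      norm_num
    have e2 : (derivative (X ^ 2 + 2 : ℤ_[3][X])).aeval (1 : ℤ_[3]) = (2 : ℤ_[3]) := by
      simp [derivative_pow]
    rw [e1, e2]
    have n3 : ‖(3 : ℤ_[3])‖ < 1 := by
      have := PadicInt.norm_p (p := 3)
      norm_num at this
      rw [this]; norm_num
    have n2 : ‖(2 : ℤ_[3])‖ = 1 := by
      have h2 : ‖((2 : ℤ) : ℤ_[3])‖ = 1 := by
        rw [PadicInt.norm_intCast_eq_one_iff]
        exact ⟨-1, 1, by norm_num⟩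
      exact_mod_cast h2
    rw [n2]; simpa using n3
  obtain ⟨z, hz, -⟩ := hensels_lemma (R := ℤ_[3]) hF
  refine ⟨z, ?_⟩
  simp at hz
  linear_combination hz

theorem LF.exists_s {U U' : PadicAlgCl 3} (h : LF U U') :
    ∃ s : ℚ_[3], algebraMap ℚ_[3] (PadicAlgCl 3) s = - 2 - U ^ 2 ∧ ‖s - 1‖ = 1 / 3 := by
  obtain ⟨z, hz⟩ := exists_s0
  have hz2 : ((z : ℚ_[3])) ^ 2 = -2 := by
    have := congrArg (fun w : ℤ_[3] => (w : ℚ_[3])) hz
    push_cast at this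
    exact this
  have hz3 : (algebraMap ℚ_[3] (PadicAlgCl 3) (z : ℚ_[3])) ^ 2 = -2 := by
    rw [← map_pow, hz2, map_neg, map_ofNat]
  have key : ∀ s : ℚ_[3], algebraMap ℚ_[3] (PadicAlgCl 3) s = - 2 - U ^ 2 → ‖s - 1‖ = 1 / 3 := by
    intro s hs
    have h1 := PadicAlgCl.norm_extends 3 (s - 1)
    have h2 : ((s - 1 : ℚ_[3]) : PadicAlgCl 3) = (- 2 - U ^ 2) - 1 := by
      show algebraMap ℚ_[3] (PadicAlgCl 3) (s - 1) = _
      rw [map_sub, hs, map_one]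
    rw [h2, ← norm_neg, neg_sub, n1mS h] at h1
    exact h1.symm
  have h1 := sq h
  have h2 : ((- 2 - U ^ 2) - algebraMap ℚ_[3] (PadicAlgCl 3) (z : ℚ_[3])) * ((- 2 - U ^ 2) + algebraMap ℚ_[3] (PadicAlgCl 3) (z : ℚ_[3])) = 0 := by
    linear_combination h1 - hz3
  rcases mul_eq_zero.1 h2 with h3 | h3
  · have e : algebraMap ℚ_[3] (PadicAlgCl 3) (z : ℚ_[3]) = - 2 - U ^ 2 := (sub_eq_zero.1 h3).symm
    exact ⟨z, e, key _ e⟩
  · have e : algebraMap ℚ_[3] (PadicAlgCl 3) (-(z : ℚ_[3])) = - 2 - U ^ 2 := by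
      rw [map_neg]; exact (eq_neg_of_add_eq_zero_left h3).symm
    exact ⟨_, e, key _ e⟩

end KuQ
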