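import Pool.Agent.LibKuQ.C1

/-! [KuQ C2] coordinates (SHORT/MEDIUM).
Plan: by C1 (exists_s) U^2 = -2 - s and U'^2 = s - 2 are in ℚ_3. The set of all
c0 + c1 U' + U (c2 + c3 U') is closed under +, * and contains ℚ_3, U, U'; so it contains
`Algebra.adjoin ℚ_[3] {U, U'}`, which equals the intermediate field since U, U' are algebraic
(`IntermediateField.adjoin_algebraic_toSubalgebra` or
`IntermediateField.adjoin_toSubalgebra_of_isAlgebraic`), by `Algebra.adjoin_induction`. -/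

namespace KuQ

private theorem C2_aux {K L : Type*} [Field K] [Field L] [Algebra K L] [Algebra.IsAlgebraic K L]
    (U U' : L) (r t : K) (hr : U ^ 2 = algebraMap K L r) (ht : U' ^ 2 = algebraMap K L t) (x : L)
    (hx : x ∈ IntermediateField.adjoin K {U, U'}) :
    ∃ c0 c1 c2 c3 : K, x = algebraMap K L c0 + algebraMap K L c1 * U'
      + U * (algebraMap K L c2 + algebraMap K L c3 * U') := by
  rw [← IntermediateField.mem_toSubalgebra, IntermediateField.adjoin_toSubalgebra] at hx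
  induction hx using Algebra.adjoin_induction with
  | mem x hx =>
    rcases hx with rfl | hx
    · exact ⟨0, 0, 1, 0, by simp⟩
    · rw [Set.mem_singleton_iff] at hx
      subst hx
      exact ⟨0, 1, 0, 0, by simp⟩
  | algebraMap c => exact ⟨c, 0, 0, 0, by simp⟩
  | add x y _ _ hx hy =>
    obtain ⟨a0, a1, a2, a3, rfl⟩ := hx
    obtain ⟨b0, b1, b2, b3, rfl⟩ := hy
    refine ⟨a0 + b0, a1 + b1, a2 + b2, a3 + b3, ?_⟩
    simp only [map_add]
    ring
  | mul x y _ _ hx hy =>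
    obtain ⟨a0, a1, a2, a3, rfl⟩ := hx
    obtain ⟨b0, b1, b2, b3, rfl⟩ := hy
    refine ⟨a0 * b0 + a1 * b1 * t + r * (a2 * b2 + a3 * b3 * t), a0 * b1 + a1 * b0 +
      r * (a2 * b3 + a3 * b2), a0 * b2 + a1 * b3 * t + a2 * b0 + a3 * b1 * t,
      a0 * b3 + a1 * b2 + a2 * b1 + a3 * b0, ?_⟩
    simp only [map_add, map_mul]
    rw [← hr, ← ht]
    ring

theorem LF.exists_coord {U U' : PadicAlgCl 3} (h : LF U U') (x : PadicAlgCl 3)
    (hx : x ∈ IntermediateField.adjoin ℚ_[3] {U, U'}) :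
    ∃ c0 c1 c2 c3 : ℚ_[3], x = algebraMap ℚ_[3] (PadicAlgCl 3) c0
      + algebraMap ℚ_[3] (PadicAlgCl 3) c1 * U'
      + U * (algebraMap ℚ_[3] (PadicAlgCl 3) c2 + algebraMap ℚ_[3] (PadicAlgCl 3) c3 * U') := by
  obtain ⟨s, hs, -⟩ := h.exists_s
  refine C2_aux U U' (-2 - s) (s - 2) ?_ ?_ x hx
  · rw [map_sub, map_neg, map_ofNat, hs]
    ring
  · rw [h.hU', map_sub, map_ofNat, hs]
    ring

end KuQ
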