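import Pool.Agent.LibKuQ.C1

/-! [KuQ C3] norms in coordinates (MEDIUM).
Plan for norm_pair: both zero: trivial. Otherwise divide by the coordinate of larger norm:
so ‖c0‖, ‖c1‖ ≤ 1 and one of them is a unit. (c0 + c1 U')(c0 - c1 U') = c0^2 - c1^2 (s - 2)
= (c0^2 + c1^2) - c1^2 (s - 1), ‖s - 1‖ = 1/3, and c0^2 + c1^2 is a unit of ℤ_[3]
(`PadicInt.toZMod`: in ZMod 3 x^2 + y^2 = 0 only for x = y = 0, decide). Both factors have
norm ≤ 1 (‖U'‖ = 1), the product has norm 1, so both have norm 1.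
norm_quad: ‖c0 + c1 U'‖ is 0 or 3^m (m : ℤ), ‖U (c2 + c3 U')‖ = ‖U‖ * 3^n with ‖U‖^2 = 1/3: their
squares are 3^(2m) and 3^(2n-1), different; so the ultrametric max is attained
(`IsUltrametricDist.norm_add_eq_max_of_norm_ne_norm`; the case of zeros separately). -/

namespace KuQ

private theorem C3_unit (x : ℤ_[3]) : ‖x ^ 2 + 1‖ = 1 := by
  by_contra hne
  have hlt : ‖x ^ 2 + 1‖ < 1 := lt_of_le_of_ne (PadicInt.norm_le_one _) hne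
  have h1 : x ^ 2 + 1 ∈ IsLocalRing.maximalIdeal ℤ_[3] := by
    rw [IsLocalRing.mem_maximalIdeal]
    exact PadicInt.mem_nonunits.2 hlt
  rw [← PadicInt.ker_toZMod, RingHom.mem_ker, map_add, map_pow, map_one] at h1
  have h2 : ∀ y : ZMod 3, y ^ 2 + 1 ≠ 0 := by decide
  exact h2 _ h1

private theorem C3_unit' (d : ℚ_[3]) (hd : ‖d‖ ≤ 1) : ‖d ^ 2 + 1‖ = 1 := by
  have h := C3_unit ⟨d, hd⟩
  exact h

private theorem C3_fac {L : Type*} [NormedField L] [IsUltrametricDist L] (a b : L) (ha : ‖a‖ ≤ 1)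
    (hb : ‖b‖ ≤ 1) (h : ‖a ^ 2 - b ^ 2‖ = 1) : ‖a + b‖ = 1 := by
  have h1 : ‖a + b‖ ≤ 1 := (IsUltrametricDist.norm_add_le_max a b).trans (max_le ha hb)
  have h2 : ‖a - b‖ ≤ 1 := by
    rw [sub_eq_add_neg]
    exact (IsUltrametricDist.norm_add_le_max a (-b)).trans (max_le ha (by rwa [norm_neg]))
  have h3 : ‖a + b‖ * ‖a - b‖ = 1 := by
    rw [← norm_mul, ← h]
    congr 1
    ring
  by_contra hne
  have h4 : ‖a + b‖ < 1 := lt_of_le_of_ne h1 hne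
  have h5 := norm_nonneg (a + b)
  have h6 := norm_nonneg (a - b)
  nlinarith

private theorem C3_one {U U' : PadicAlgCl 3} (h : LF U U') (d : ℚ_[3]) (hd : ‖d‖ ≤ 1) :
    ‖1 + algebraMap ℚ_[3] (PadicAlgCl 3) d * U'‖ = 1 := by
  obtain ⟨s, hs, hs1⟩ := h.exists_s
  have hU' := h.norm_U'
  have hdn : ‖algebraMap ℚ_[3] (PadicAlgCl 3) d‖ = ‖d‖ := PadicAlgCl.norm_extends 3 d
  refine C3_fac _ _ (by rw [norm_one]) (by rw [norm_mul, hU', mul_one, hdn]; exact hd) ?_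
  have h1 : (1 : PadicAlgCl 3) ^ 2 - (algebraMap ℚ_[3] (PadicAlgCl 3) d * U') ^ 2 =
      algebraMap ℚ_[3] (PadicAlgCl 3) ((d ^ 2 + 1) + -(d ^ 2 * (s - 1))) := by
    rw [mul_pow, h.hU']
    simp only [map_add, map_neg, map_mul, map_sub, map_pow, map_one, hs]
    ring
  rw [h1]
  have h2 : ‖algebraMap ℚ_[3] (PadicAlgCl 3) ((d ^ 2 + 1) + -(d ^ 2 * (s - 1)))‖ =
      ‖(d ^ 2 + 1) + -(d ^ 2 * (s - 1))‖ := PadicAlgCl.norm_extends 3 _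
  rw [h2]
  have h3 := C3_unit' d hd
  have h4 : ‖-(d ^ 2 * (s - 1))‖ < 1 := by
    rw [norm_neg, norm_mul, norm_pow, hs1]
    have h5 : ‖d‖ ^ 2 ≤ 1 := pow_le_one₀ (norm_nonneg _) hd
    linarith
  rw [IsUltrametricDist.norm_add_eq_max_of_norm_ne_norm (by rw [h3]; exact h4.ne'), h3]
  exact max_eq_left h4.le

private theorem C3_two {U U' : PadicAlgCl 3} (h : LF U U') (d : ℚ_[3]) (hd : ‖d‖ ≤ 1) :
    ‖algebraMap ℚ_[3] (PadicAlgCl 3) d + U'‖ = 1 := by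
  obtain ⟨s, hs, hs1⟩ := h.exists_s
  have hU' := h.norm_U'
  have hdn : ‖algebraMap ℚ_[3] (PadicAlgCl 3) d‖ = ‖d‖ := PadicAlgCl.norm_extends 3 d
  refine C3_fac _ _ (by rw [hdn]; exact hd) hU'.le ?_
  have h1 : (algebraMap ℚ_[3] (PadicAlgCl 3) d) ^ 2 - U' ^ 2 =
      algebraMap ℚ_[3] (PadicAlgCl 3) ((d ^ 2 + 1) + -(s - 1)) := by
    rw [h.hU']
    simp only [map_add, map_neg, map_sub, map_pow, map_one, hs]
    ring
  rw [h1]
  have h2 : ‖algebraMap ℚ_[3] (PadicAlgCl 3) ((d ^ 2 + 1) + -(s - 1))‖ =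
      ‖(d ^ 2 + 1) + -(s - 1)‖ := PadicAlgCl.norm_extends 3 _
  rw [h2]
  have h3 := C3_unit' d hd
  have h4 : ‖-(s - 1)‖ < 1 := by
    rw [norm_neg, hs1]
    norm_num
  rw [IsUltrametricDist.norm_add_eq_max_of_norm_ne_norm (by rw [h3]; exact h4.ne'), h3]
  exact max_eq_left h4.le

theorem LF.norm_pair {U U' : PadicAlgCl 3} (h : LF U U') (c0 c1 : ℚ_[3]) :
    ‖algebraMap ℚ_[3] (PadicAlgCl 3) c0 + algebraMap ℚ_[3] (PadicAlgCl 3) c1 * U'‖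
      = max ‖c0‖ ‖c1‖ := by
  have hn : ∀ d : ℚ_[3], ‖algebraMap ℚ_[3] (PadicAlgCl 3) d‖ = ‖d‖ := PadicAlgCl.norm_extends 3
  by_cases h0 : c0 = 0 ∧ c1 = 0
  · obtain ⟨rfl, rfl⟩ := h0
    simp
  by_cases hle : ‖c1‖ ≤ ‖c0‖
  · have hc0 : c0 ≠ 0 := by
      rintro rfl
      rw [norm_zero] at hle
      exact h0 ⟨rfl, norm_le_zero_iff.1 hle⟩
    have h1 : algebraMap ℚ_[3] (PadicAlgCl 3) c0 + algebraMap ℚ_[3] (PadicAlgCl 3) c1 * U' =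
        algebraMap ℚ_[3] (PadicAlgCl 3) c0 *
          (1 + algebraMap ℚ_[3] (PadicAlgCl 3) (c1 / c0) * U') := by
      rw [mul_add, mul_one, ← mul_assoc, ← map_mul, mul_div_cancel₀ _ hc0]
    rw [h1, norm_mul, hn, C3_one h _ (by rw [norm_div]; exact div_le_one_of_le₀ hle (norm_nonneg _)),
      mul_one, max_eq_left hle]
  · have hle' : ‖c0‖ ≤ ‖c1‖ := (not_le.1 hle).le
    have hc1 : c1 ≠ 0 := by
      rintro rfl
      apply hle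
      rw [norm_zero]
      exact norm_nonneg _
    have h1 : algebraMap ℚ_[3] (PadicAlgCl 3) c0 + algebraMap ℚ_[3] (PadicAlgCl 3) c1 * U' =
        algebraMap ℚ_[3] (PadicAlgCl 3) c1 *
          (algebraMap ℚ_[3] (PadicAlgCl 3) (c0 / c1) + U') := by
      rw [mul_add, ← map_mul, mul_div_cancel₀ _ hc1]
    rw [h1, norm_mul, hn, C3_two h _ (by rw [norm_div]; exact div_le_one_of_le₀ hle' (norm_nonneg _)),
      mul_one, max_eq_right hle']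

private theorem C3_par (a b : ℚ_[3]) (hb : b ≠ 0) : ‖a‖ ^ 2 ≠ 1 / 3 * ‖b‖ ^ 2 := by
  intro he
  have hb' : (0 : ℝ) < ‖b‖ := norm_pos_iff.2 hb
  have ha : a ≠ 0 := by
    rintro rfl
    rw [norm_zero] at he
    nlinarith [sq_pos_of_pos hb']
  rw [Padic.norm_eq_zpow_neg_valuation ha, Padic.norm_eq_zpow_neg_valuation hb] at he
  set m : ℤ := -a.valuation
  set n : ℤ := -b.valuation
  have h1 : ((3 : ℕ) : ℝ) ^ (2 * m + 1) = ((3 : ℕ) : ℝ) ^ (2 * n) := by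
    have h3 : ((3 : ℕ) : ℝ) ≠ 0 := by norm_num
    rw [zpow_add₀ h3, zpow_one, mul_comm (2 : ℤ) m, mul_comm (2 : ℤ) n, zpow_mul, zpow_mul]
    have h4 : (((3 : ℕ) : ℝ) ^ m) ^ (2 : ℤ) = (((3 : ℕ) : ℝ) ^ m) ^ 2 := by norm_cast
    have h5 : (((3 : ℕ) : ℝ) ^ n) ^ (2 : ℤ) = (((3 : ℕ) : ℝ) ^ n) ^ 2 := by norm_cast
    rw [h4, h5, he]
    push_cast
    ring
  have h2 := zpow_right_injective₀ (by norm_num : (0 : ℝ) < ((3 : ℕ) : ℝ))
    (by norm_num : ((3 : ℕ) : ℝ) ≠ 1) h1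
  omega

theorem LF.norm_quad {U U' : PadicAlgCl 3} (h : LF U U') (c0 c1 c2 c3 : ℚ_[3]) :
    ‖algebraMap ℚ_[3] (PadicAlgCl 3) c0 + algebraMap ℚ_[3] (PadicAlgCl 3) c1 * U'
      + U * (algebraMap ℚ_[3] (PadicAlgCl 3) c2 + algebraMap ℚ_[3] (PadicAlgCl 3) c3 * U')‖
      = max (max ‖c0‖ ‖c1‖) (‖U‖ * max ‖c2‖ ‖c3‖) := by
  set A := algebraMap ℚ_[3] (PadicAlgCl 3) c0 + algebraMap ℚ_[3] (PadicAlgCl 3) c1 * U' with hA
  set B := algebraMap ℚ_[3] (PadicAlgCl 3) c2 + algebraMap ℚ_[3] (PadicAlgCl 3) c3 * U' with hB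
  have hnA : ‖A‖ = max ‖c0‖ ‖c1‖ := h.norm_pair c0 c1
  have hnB : ‖B‖ = max ‖c2‖ ‖c3‖ := h.norm_pair c2 c3
  rw [← hnA, ← hnB, ← norm_mul]
  by_cases hne : ‖A‖ = ‖U * B‖
  · have hB0 : ‖B‖ = 0 := by
      by_contra hB0
      obtain ⟨a, ha⟩ : ∃ a : ℚ_[3], ‖A‖ = ‖a‖ := by
        rw [hnA]
        rcases max_choice ‖c0‖ ‖c1‖ with h1 | h1
        · exact ⟨c0, h1⟩
        · exact ⟨c1, h1⟩
      obtain ⟨b, hb⟩ : ∃ b : ℚ_[3], ‖B‖ = ‖b‖ := by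
        rw [hnB]
        rcases max_choice ‖c2‖ ‖c3‖ with h1 | h1
        · exact ⟨c2, h1⟩
        · exact ⟨c3, h1⟩
      have hb0 : b ≠ 0 := by
        rintro rfl
        rw [norm_zero] at hb
        exact hB0 hb
      apply C3_par a b hb0
      rw [← ha, ← hb, hne, norm_mul, mul_pow, h.norm_U]
    have hB1 : B = 0 := norm_eq_zero.1 hB0
    rw [hB1, mul_zero, norm_zero] at hne
    rw [hB1, mul_zero, add_zero, hne, norm_zero, max_self]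
  · exact IsUltrametricDist.norm_add_eq_max_of_norm_ne_norm hne

end KuQ
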