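import Pool.Agent.LibKuQ.C2
import Pool.Agent.LibKuQ.C3

/-! [KuQ C4] x^8 = 1 modulo U for units (MEDIUM).
Plan: x = α + U β by C2, α = c0 + c1 U', β = c2 + c3 U'. ‖x‖ = 1 and C3 (norm_quad):
max(‖c0‖,‖c1‖) ≤ 1 and ‖U‖ max(‖c2‖,‖c3‖) ≤ 1; the norms of ℚ_3 are powers of 3 and ‖U‖ = 3^(-1/2), so
‖c2‖, ‖c3‖ ≤ 1, hence ‖U β‖ ≤ ‖U‖ < 1 and max(‖c0‖,‖c1‖) = 1. x^8 - α^8 has norm ≤ ‖U‖
(factor x - α). α^8 - 1 has norm ≤ 1/3 ≤ ‖U‖: write c_i = e_i + 3 d_i with e_i ∈ {-1,0,1} integers,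
d_i in ℤ_3 (ZMod 3), (e0,e1) ≠ (0,0), U'^2 = -1 + (s - 1): α^2 ≡ e0^2 - e1^2 + 2 e0 e1 U' mod 3, in each of
the 8 cases α^8 ≡ 1 mod 3. -/

namespace KuQ

private theorem C4_le1 (c : ℚ_[3]) (h : ‖c‖ < 3) : ‖c‖ ≤ 1 := by
  have h1 := Padic.norm_le_pow_iff_norm_lt_pow_add_one c 0
  rw [zpow_zero, zero_add, zpow_one] at h1
  exact h1.2 (by exact_mod_cast h)

private theorem C4_le3 (c : ℚ_[3]) (h : ‖c‖ < 1) : ‖c‖ ≤ 1 / 3 := by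
  have h1 := Padic.norm_le_pow_iff_norm_lt_pow_add_one c (-1)
  rw [neg_add_cancel, zpow_zero] at h1
  have h2 := h1.2 h
  rw [zpow_neg, zpow_one] at h2
  rw [one_div]
  exact_mod_cast h2

private theorem C4_z (z : ℤ_[3]) : ‖z‖ < 1 ↔ PadicInt.toZMod z = 0 := by
  rw [← PadicInt.mem_nonunits, ← IsLocalRing.mem_maximalIdeal, ← PadicInt.ker_toZMod,
    RingHom.mem_ker]

private theorem C4_mod (a b t : ℤ_[3]) (ht : ‖t + 1‖ < 1) (hab : ¬ ‖a‖ < 1 ∨ ¬ ‖b‖ < 1) :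
    ‖(((a ^ 2 + b ^ 2 * t) ^ 2 + (2 * a * b) ^ 2 * t) ^ 2 +
      (2 * (a ^ 2 + b ^ 2 * t) * (2 * a * b)) ^ 2 * t) - 1‖ < 1 ∧
    ‖2 * ((a ^ 2 + b ^ 2 * t) ^ 2 + (2 * a * b) ^ 2 * t) *
      (2 * (a ^ 2 + b ^ 2 * t) * (2 * a * b))‖ < 1 := by
  rw [C4_z, map_add, map_one] at ht
  rw [C4_z, C4_z] at hab
  have ht' : PadicInt.toZMod t = 2 := by
    have h1 : ∀ y : ZMod 3, y + 1 = 0 → y = 2 := by decide
    exact h1 _ ht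
  rw [C4_z, C4_z]
  simp only [map_sub, map_add, map_mul, map_pow, map_one, map_ofNat, ht']
  generalize PadicInt.toZMod a = y at *
  generalize PadicInt.toZMod b = z at *
  revert y z
  decide

private theorem C4_sq {L : Type*} [CommRing L] (a b V T : L) (hV : V ^ 2 = T) :
    (a + b * V) ^ 2 = (a ^ 2 + b ^ 2 * T) + (2 * a * b) * V := by
  rw [← hV]
  ring

private theorem C4_alpha {U U' : PadicAlgCl 3} (h : LF U U') (c0 c1 : ℚ_[3]) (h0 : ‖c0‖ ≤ 1)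
    (h1 : ‖c1‖ ≤ 1) (h01 : max ‖c0‖ ‖c1‖ = 1) :
    ‖(algebraMap ℚ_[3] (PadicAlgCl 3) c0 + algebraMap ℚ_[3] (PadicAlgCl 3) c1 * U') ^ 8 - 1‖ ≤
      1 / 3 := by
  obtain ⟨s, hs, hs1⟩ := h.exists_s
  have hn : ∀ d : ℚ_[3], ‖algebraMap ℚ_[3] (PadicAlgCl 3) d‖ = ‖d‖ := PadicAlgCl.norm_extends 3
  have hU' := h.norm_U'
  have ht1 : ‖s - 2‖ ≤ 1 := by
    have e1 : s - 2 = (s - 1) + (-1) := by ring
    rw [e1]
    refine (IsUltrametricDist.norm_add_le_max _ _).trans (max_le ?_ ?_)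
    · rw [hs1]
      norm_num
    · rw [norm_neg, norm_one]
  have hT : U' ^ 2 = algebraMap ℚ_[3] (PadicAlgCl 3) (s - 2) := by
    rw [h.hU', map_sub, map_ofNat, hs]
    ring
  have hm := C4_mod ⟨c0, h0⟩ ⟨c1, h1⟩ ⟨s - 2, ht1⟩ (by
    have e1 : s - 2 + 1 = s - 1 := by ring
    change ‖s - 2 + 1‖ < 1
    rw [e1, hs1]
    norm_num) (by
    by_contra hcon
    push Not at hcon
    obtain ⟨h2, h3⟩ := hcon
    have h4 : ‖c0‖ < 1 := h2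
    have h5 : ‖c1‖ < 1 := h3
    rw [← h01] at h4 h5
    rcases max_choice ‖c0‖ ‖c1‖ with h6 | h6
    · rw [h6] at h4
      exact lt_irrefl _ h4
    · rw [h6] at h5
      exact lt_irrefl _ h5)
  obtain ⟨hm1, hm2⟩ := hm
  have hm1' : ‖(((c0 ^ 2 + c1 ^ 2 * (s - 2)) ^ 2 + (2 * c0 * c1) ^ 2 * (s - 2)) ^ 2 +
      (2 * (c0 ^ 2 + c1 ^ 2 * (s - 2)) * (2 * c0 * c1)) ^ 2 * (s - 2)) - 1‖ < 1 := hm1
  have hm2' : ‖2 * ((c0 ^ 2 + c1 ^ 2 * (s - 2)) ^ 2 + (2 * c0 * c1) ^ 2 * (s - 2)) *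
      (2 * (c0 ^ 2 + c1 ^ 2 * (s - 2)) * (2 * c0 * c1))‖ < 1 := hm2
  have key : (algebraMap ℚ_[3] (PadicAlgCl 3) c0 + algebraMap ℚ_[3] (PadicAlgCl 3) c1 * U') ^ 8 - 1 =
      algebraMap ℚ_[3] (PadicAlgCl 3) ((((c0 ^ 2 + c1 ^ 2 * (s - 2)) ^ 2 +
        (2 * c0 * c1) ^ 2 * (s - 2)) ^ 2 +
        (2 * (c0 ^ 2 + c1 ^ 2 * (s - 2)) * (2 * c0 * c1)) ^ 2 * (s - 2)) - 1) +
      algebraMap ℚ_[3] (PadicAlgCl 3) (2 * ((c0 ^ 2 + c1 ^ 2 * (s - 2)) ^ 2 +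
        (2 * c0 * c1) ^ 2 * (s - 2)) * (2 * (c0 ^ 2 + c1 ^ 2 * (s - 2)) * (2 * c0 * c1))) * U' := by
    have e8 : (algebraMap ℚ_[3] (PadicAlgCl 3) c0 + algebraMap ℚ_[3] (PadicAlgCl 3) c1 * U') ^ 8 =
        (((algebraMap ℚ_[3] (PadicAlgCl 3) c0 +
          algebraMap ℚ_[3] (PadicAlgCl 3) c1 * U') ^ 2) ^ 2) ^ 2 := by
      rw [← pow_mul, ← pow_mul]
    rw [e8, C4_sq _ _ _ _ hT, C4_sq _ _ _ _ hT, C4_sq _ _ _ _ hT]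
    simp only [map_sub, map_add, map_mul, map_pow, map_one, map_ofNat]
    ring
  rw [key]
  refine (IsUltrametricDist.norm_add_le_max _ _).trans (max_le ?_ ?_)
  · rw [hn]
    exact C4_le3 _ hm1'
  · rw [norm_mul, hU', mul_one, hn]
    exact C4_le3 _ hm2'

private theorem C4_diff {L : Type*} [NormedField L] [IsUltrametricDist L] (x a : L) (hx : ‖x‖ ≤ 1)
    (ha : ‖a‖ ≤ 1) : ‖x ^ 8 - a ^ 8‖ ≤ ‖x - a‖ := by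
  have h1 : ∀ y b : L, ‖y‖ ≤ 1 → ‖b‖ ≤ 1 → ‖y + b‖ ≤ 1 := fun y b hy hb =>
    (IsUltrametricDist.norm_add_le_max y b).trans (max_le hy hb)
  have h2 : ∀ (y : L) (n : ℕ), ‖y‖ ≤ 1 → ‖y ^ n‖ ≤ 1 := by
    intro y n hy
    rw [norm_pow]
    exact pow_le_one₀ (norm_nonneg _) hy
  have h3 : x ^ 8 - a ^ 8 = (x - a) * ((x + a) * ((x ^ 2 + a ^ 2) * (x ^ 4 + a ^ 4))) := by ring
  rw [h3, norm_mul]
  refine mul_le_of_le_one_right (norm_nonneg _) ?_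
  rw [norm_mul, norm_mul]
  have e1 := h1 x a hx ha
  have e2 := h1 (x ^ 2) (a ^ 2) (h2 x 2 hx) (h2 a 2 ha)
  have e3 := h1 (x ^ 4) (a ^ 4) (h2 x 4 hx) (h2 a 4 ha)
  exact mul_le_one₀ e1 (by positivity) (mul_le_one₀ e2 (norm_nonneg _) e3)

theorem LF.pow_eight {U U' : PadicAlgCl 3} (h : LF U U') (x : PadicAlgCl 3)
    (hx : x ∈ IntermediateField.adjoin ℚ_[3] {U, U'}) (h1 : ‖x‖ = 1) :
    ‖x ^ 8 - 1‖ ≤ ‖U‖ := by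
  obtain ⟨c0, c1, c2, c3, rfl⟩ := h.exists_coord x hx
  have hq := h.norm_quad c0 c1 c2 c3
  rw [h1] at hq
  have hU2 := h.norm_U
  have hUn := norm_nonneg U
  have hU1 : ‖U‖ < 1 := by nlinarith
  have hU3 : 1 / 3 ≤ ‖U‖ := by nlinarith
  have hU0 : 0 < ‖U‖ := by linarith
  have hα : max ‖c0‖ ‖c1‖ ≤ 1 := by rw [hq]; exact le_max_left _ _
  have hβ : ‖U‖ * max ‖c2‖ ‖c3‖ ≤ 1 := by rw [hq]; exact le_max_right _ _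
  have hβ3 : max ‖c2‖ ‖c3‖ < 3 := by
    by_contra hcon
    have h3 : 3 ≤ max ‖c2‖ ‖c3‖ := not_lt.1 hcon
    nlinarith
  have hc2 : ‖c2‖ ≤ 1 := C4_le1 _ ((le_max_left _ _).trans_lt hβ3)
  have hc3 : ‖c3‖ ≤ 1 := C4_le1 _ ((le_max_right _ _).trans_lt hβ3)
  have hβ1 : max ‖c2‖ ‖c3‖ ≤ 1 := max_le hc2 hc3
  have hα1 : max ‖c0‖ ‖c1‖ = 1 := by
    rcases max_choice (max ‖c0‖ ‖c1‖) (‖U‖ * max ‖c2‖ ‖c3‖) with h2 | h2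
    · rw [h2] at hq
      exact hq.symm
    · rw [h2] at hq
      exfalso
      nlinarith
  have hB : ‖U * (algebraMap ℚ_[3] (PadicAlgCl 3) c2 +
      algebraMap ℚ_[3] (PadicAlgCl 3) c3 * U')‖ ≤ ‖U‖ := by
    rw [norm_mul, h.norm_pair c2 c3]
    exact mul_le_of_le_one_right hUn hβ1
  have hA : ‖algebraMap ℚ_[3] (PadicAlgCl 3) c0 + algebraMap ℚ_[3] (PadicAlgCl 3) c1 * U'‖ ≤ 1 := by
    rw [h.norm_pair c0 c1]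
    exact hα
  have h2 := C4_alpha h c0 c1 ((le_max_left _ _).trans hα) ((le_max_right _ _).trans hα) hα1
  have h3 := C4_diff _ _ h1.le hA
  rw [add_sub_cancel_left] at h3
  have h4 : ∀ X A : PadicAlgCl 3, X ^ 8 - 1 = (X ^ 8 - A ^ 8) + (A ^ 8 - 1) := fun X A => by ring
  rw [h4 _ (algebraMap ℚ_[3] (PadicAlgCl 3) c0 + algebraMap ℚ_[3] (PadicAlgCl 3) c1 * U')]
  exact (IsUltrametricDist.norm_add_le_max _ _).trans (max_le (h3.trans hB) (h2.trans hU3))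

end KuQ
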