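import Mathlib

/-!
# The quartic field Q(u), u^4 + 4 u^2 + 6 = 0 (board KuQ, MP_3c6ab9)

`QF u`: the number field `M` is generated over the rationals by `u` with `u^4 + 4u^2 + 6 = 0`.
`el u a b c d = a + b u + c u^2 + d u^3`.
With `s = -2 - u^2` we have `s^2 = -2`; `sigma : u -> -u` is the automorphism of `M / Q(s)`.
`e0 = 5 + 2u + 2u^2` is a unit of norm one with `e0(u) * e0(-u) = 1`.
`v1 = -11 + 2u - 4u^2 - u^3` and `v2 = -11 + 8u + 5u^3` have norm 193 (they vanish at `u = 93`, `u = 15`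
modulo 193), `z1 = v1(u) v1(-u)^2 e0^2`, `z2 = v2(u) v2(-u)^2 e0^2`.
-/

open NumberField Module Polynomial

namespace KuQ

/-- `M` is the number field generated by a root `u` of `X^4 + 4X^2 + 6`. -/
structure QF {M : Type*} [Field M] [NumberField M] (u : M) : Prop where
  root : u ^ 4 + 4 * u ^ 2 + 6 = 0
  top : IntermediateField.adjoin ℚ {u} = ⊤

/-- the element `a + b u + c u^2 + d u^3`. -/
def el {M : Type*} [Field M] (u : M) (a b c d : ℚ) : M :=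
  (a : M) + (b : M) * u + (c : M) * u ^ 2 + (d : M) * u ^ 3

/-- the unit `e0 = 5 + 2u + 2u^2`. -/
def e0 {M : Type*} [CommRing M] (u : M) : M := 5 + 2 * u + 2 * u ^ 2

/-- an element of norm 193. -/
def v1 {M : Type*} [CommRing M] (u : M) : M := -11 + 2 * u - 4 * u ^ 2 - u ^ 3

/-- an element of norm 193. -/
def v2 {M : Type*} [CommRing M] (u : M) : M := -11 + 8 * u + 5 * u ^ 3

def z1 {M : Type*} [CommRing M] (u : M) : M := v1 u * v1 (-u) ^ 2 * e0 u ^ 2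

def z2 {M : Type*} [CommRing M] (u : M) : M := v2 u * v2 (-u) ^ 2 * e0 u ^ 2

/-- the norm form: `N (a + b u + c u^2 + d u^3) = A^2 - 4AB + 6B^2`. -/
def nrA (a b c d : ℚ) : ℚ := a ^ 2 - 6 * c ^ 2 + 12 * b * d - 24 * d ^ 2

def nrB (a b c d : ℚ) : ℚ := 2 * a * c - 4 * c ^ 2 - b ^ 2 + 8 * b * d - 10 * d ^ 2

def nr (a b c d : ℚ) : ℚ :=
  nrA a b c d ^ 2 - 4 * nrA a b c d * nrB a b c d + 6 * nrB a b c d ^ 2

section data
variable {M : Type*} [CommRing M] {u : M}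

theorem e0_mul_neg (hu : u ^ 4 + 4 * u ^ 2 + 6 = 0) : e0 u * e0 (-u) = 1 := by
  unfold e0; linear_combination 4 * hu

theorem v1_mul (hu : u ^ 4 + 4 * u ^ 2 + 6 = 0) :
    v1 u * (133 - 38 * u + 26 * u ^ 2 - 35 * u ^ 3) = 193 := by
  unfold v1; linear_combination (35 * u ^ 2 + 114 * u - 276) * hu

theorem v2_mul (hu : u ^ 4 + 4 * u ^ 2 + 6 = 0) :
    v2 u * (253 + 4 * u + 66 * u ^ 2 + 43 * u ^ 3) = 193 := by
  unfold v2; linear_combination (215 * u ^ 2 + 330 * u - 496) * hu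

theorem z1_eq (hu : u ^ 4 + 4 * u ^ 2 + 6 = 0) :
    z1 u = -5867 - 1338 * u - 2034 * u ^ 2 + 381 * u ^ 3 := by
  unfold z1 v1 e0
  linear_combination (-4568 - 5222 * u - 8613 * u ^ 2 - 4214 * u ^ 3 - 2812 * u ^ 4 - 217 * u ^ 5
    - 56 * u ^ 6 + 112 * u ^ 7 + 8 * u ^ 8 - 4 * u ^ 9) * hu

theorem z2_eq (hu : u ^ 4 + 4 * u ^ 2 + 6 = 0) :
    z2 u = -275 - 96 * u - 106 * u ^ 2 + 3 * u ^ 3 := by
  unfold z2 v2 e0
  linear_combination (-5500 - 8454 * u - 1933 * u ^ 2 + 1948 * u ^ 3 + 6200 * u ^ 4 + 6965 * u ^ 5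
    + 4400 * u ^ 6 + 3400 * u ^ 7 + 1000 * u ^ 8 + 500 * u ^ 9) * hu

theorem z1_mul_neg (hu : u ^ 4 + 4 * u ^ 2 + 6 = 0) :
    z1 u * z1 (-u) = (v1 u * v1 (-u)) ^ 3 := by
  have h := e0_mul_neg hu
  unfold z1
  rw [neg_neg]
  linear_combination (v1 u * v1 (-u)) ^ 3 * (e0 u * e0 (-u) + 1) * h

theorem z2_mul_neg (hu : u ^ 4 + 4 * u ^ 2 + 6 = 0) :
    z2 u * z2 (-u) = (v2 u * v2 (-u)) ^ 3 := by
  have h := e0_mul_neg hu
  unfold z2
  rw [neg_neg]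
  linear_combination (v2 u * v2 (-u)) ^ 3 * (e0 u * e0 (-u) + 1) * h

/-- `z1` is a cube modulo 9. -/
theorem z1_cube_mod (hu : u ^ 4 + 4 * u ^ 2 + 6 = 0) :
    z1 u = (1 - u - u ^ 3) ^ 3 + 9 * (-656 - 149 * u - 227 * u ^ 2 + 43 * u ^ 3) := by
  rw [z1_eq hu]
  linear_combination (6 + u - 3 * u ^ 2 - u ^ 3 + u ^ 5) * hu

/-- `z2` is a cube modulo 9. -/
theorem z2_cube_mod (hu : u ^ 4 + 4 * u ^ 2 + 6 = 0) :
    z2 u = (1 - u - u ^ 2 - u ^ 3) ^ 3 + 9 * (-36 - u - 10 * u ^ 2 + 5 * u ^ 3) := by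
  rw [z2_eq hu]
  linear_combination (8 - 14 * u - 8 * u ^ 2 + 2 * u ^ 3 + 3 * u ^ 4 + u ^ 5) * hu

end data

end KuQ
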